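import Pool.Agent.Y922.AP.Fin2
import Pool.Agent.Y124.NFPoly

/-!
# Project AP: the engine at algebraic levels
-/

set_option autoImplicit false

open Filter Topology Set

namespace Pool.Agent.Y922.AP

theorem locInd_of_fun {n : ℕ} {g : Fin n → ℂ → ℂ} {a₀ : ℂ}
    (h : ∀ P : MvPolynomial (Option (Fin n)) ℂ, P ≠ 0 →
      ∀ᶠ a in 𝓝[≠] a₀, MvPolynomial.eval (fun o : Option (Fin n) => o.elim a fun i => g i a) P ≠ 0) :
    Y124.LocInd g a₀ := by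
  intro P hP
  by_contra hne
  obtain ⟨a, h1, h2⟩ := ((h P hne).and (hP.filter_mono nhdsWithin_le_nhds)).exists
  exact h1 h2

theorem oneLevels {f : ℂ → ℂ} (hfun : ∀ (n : ℕ) (P : MvPolynomial (Option (Fin n)) ℂ), P ≠ 0 →
      ∀ (a₀ : ℂ) (g : Fin n → ℂ → ℂ), (∀ i, AnalyticAt ℂ (g i) a₀) → (∀ i, ∀ᶠ a in 𝓝 a₀, f (g i a) = a) →
      (∀ i j, i ≠ j → g i a₀ ≠ g j a₀ ∧ g i a₀ + g j a₀ ≠ 1) →
      ∀ᶠ a in 𝓝[≠] a₀, MvPolynomial.eval (fun o : Option (Fin n) => o.elim a fun i => g i a) P ≠ 0)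
    (g' : ℕ) {n : ℕ} (g : Fin n → ℂ → ℂ) (K : Set ℂ) (hK : IsCompact K) (hg : ∀ i, ∀ a ∈ K, AnalyticAt ℂ (g i) a)
    (hgx : ∀ i, ∀ a ∈ K, ∀ᶠ b in 𝓝 a, f (g i b) = b)
    (hne : ∀ a ∈ K, ∀ i j, i ≠ j → g i a ≠ g j a ∧ g i a + g j a ≠ 1) :
    Y124.OneV g' (fun R T => {t | t ∈ K ∧ Y120.Pt R T t}) (fun a i => g i a) :=
  Y124.oneV_of g' g K hK hg fun t ht => locInd_of_fun fun P hP =>
    hfun n P hP t g (fun i => hg i t ht) (fun i => hgx i t ht) (hne t ht)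

end Pool.Agent.Y922.AP
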