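import Pool.Agent.Y922.AP.Fin
import Pool.Agent.Y529.AQ.Mul
import Pool.Agent.Y312.AQ.ChiStrip
import Pool.Agent.Y497.AQ.ChiLog
import Pool.Agent.Y93.AQ.Conj
import Pool.Agent.Y79.AQ.Lfe
import Pool.Agent.Y455.AQ.Sq
import Pool.Agent.Y737.AQ.T1
import Pool.Agent.Y306.AQ.T2
import Pool.Agent.Y532.AQ.T3
import Pool.Agent.Y929.AQ.Ord

/-!
# Project AQ: assembly for products of Dirichlet L-functions
-/

set_option autoImplicit false

open Filter Topology Set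

namespace Pool.Agent.Y922.AQ

open Pool.Agent.Y922.AP

theorem sq_countable {E : Set ℂ} (hE : E.Countable) : {a : ℂ | a ^ 2 ∈ E}.Countable := by
  have h1 : {a : ℂ | a ^ 2 ∈ E} ⊆ ⋃ b ∈ E, {a : ℂ | a ^ 2 = b} := by
    intro a ha
    simp only [mem_iUnion]
    exact ⟨a ^ 2, ha, rfl⟩
  refine (hE.biUnion fun b _ => ?_).mono h1
  by_cases hne : ∃ r : ℂ, r ^ 2 = b
  · obtain ⟨r, hr⟩ := hne
    refine ((Set.finite_singleton (-r)).insert r).countable.mono ?_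
    intro a ha
    have h2 : a ^ 2 = b := ha
    have h3 : (a - r) * (a + r) = 0 := by linear_combination h2 - hr
    rcases mul_eq_zero.mp h3 with h4 | h4
    · left; exact sub_eq_zero.mp h4
    · right; exact eq_neg_of_add_eq_zero_left h4
  · refine Set.countable_empty.mono ?_
    intro a ha
    exact absurd ⟨a, ha⟩ hne

/-- the general theorem for good functions -/
theorem finalL {f : ℂ → ℂ} (hf : Good f) (hfe : ∃ c : ℂ, ∀ s, f (1 - s) = c * f s)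
    (hconj : ∀ s : ℂ, f (starRingEnd ℂ s) = starRingEnd ℂ (f s))
    (hzero : ∃ t : ℝ, 0 < t ∧ f (1 / 2 + t * Complex.I) = 0) (K : Subfield ℂ) (hK : Countable K) :
    ∃ E : Set ℂ, E.Countable ∧ (∀ a : ℂ, a ∉ E → Transcendental K a ∧
      ∀ (n : ℕ) (s : Fin n → ℂ), (∀ i, f (s i) = a) → (∀ i j, i ≠ j → s i ≠ s j ∧ s i + s j ≠ 1) →
        AlgebraicIndependent (adj K a) s) ∧
      ∀ a : ℝ, (a : ℂ) ∉ E → AlgebraicIndependent (adj K a)
        (fun γ : {γ : ℝ // 0 < γ ∧ ∃ β : ℝ, f ((β : ℂ) + (γ : ℂ) * Complex.I) = (a : ℂ)} => ((γ.1 : ℝ) : ℂ)) := by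
  obtain ⟨c, hc⟩ := hfe
  have hc2 : c * c = 1 := by
    obtain ⟨σ₀, L, -, hL⟩ := hf.log
    have h1 : f ((σ₀ + 1 : ℝ) : ℂ) ≠ 0 := by
      rw [← (hL ((σ₀ + 1 : ℝ) : ℂ) (by simp)).2.1]
      exact Complex.exp_ne_zero _
    have h2 := hc (1 - ((σ₀ + 1 : ℝ) : ℂ))
    rw [sub_sub_cancel, hc] at h2
    have h3 : (c * c - 1) * f ((σ₀ + 1 : ℝ) : ℂ) = 0 := by linear_combination -h2
    exact sub_eq_zero.mp ((mul_eq_zero.mp h3).resolve_right h1)
  have hg : Good (fun s => f s * f s) := Y529.AQ.t_MUL f f hf hf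
  have hgs : ∀ s, (fun s => f s * f s) (1 - s) = (fun s => f s * f s) s := by
    intro s
    show f (1 - s) * f (1 - s) = f s * f s
    rw [hc]
    linear_combination (f s * f s) * hc2
  have hgc : ∀ s : ℂ, (fun s => f s * f s) (starRingEnd ℂ s) = starRingEnd ℂ ((fun s => f s * f s) s) := by
    intro s
    show f (starRingEnd ℂ s) * f (starRingEnd ℂ s) = starRingEnd ℂ (f s * f s)
    rw [hconj, map_mul]
  have hgz : ∃ t : ℝ, 0 < t ∧ (fun s => f s * f s) (1 / 2 + t * Complex.I) = 0 := by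
    obtain ⟨t, ht, h0⟩ := hzero
    refine ⟨t, ht, ?_⟩
    show f _ * f _ = 0
    rw [h0, zero_mul]
  obtain ⟨X, hX, hXs⟩ := Y455.AQ.t_SQ _ hg.diff hgs
  have h1 := Y737.AQ.t_T1 _ hg X hX hXs
  obtain ⟨R, G, hG⟩ := Y306.AQ.t_T2 _ hg X hX hXs
  have h3 := Y532.AQ.t_T3 _ hg hgc hgz X hX hXs
  have hmain := main X R G hX h1 hG h3 K hK
  have hXf : ∀ s, X ((s - 1 / 2) ^ 2) = f s ^ 2 := by
    intro s; rw [hXs]; show f s * f s = f s ^ 2; ring
  have key : ∀ a : ℂ, a ^ 2 ∉ {b : ℂ | ∃ (n : ℕ) (y : Fin n → ℂ), Function.Injective y ∧ (∀ i, X (y i) = b) ∧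
      ¬ AlgebraicIndependent K (fun o : Option (Fin n) => o.elim b y)} →
      ∀ (n : ℕ) (y : Fin n → ℂ), Function.Injective y → (∀ i, X (y i) = a ^ 2) →
        Transcendental K a ∧ AlgebraicIndependent (adj K a) y := by
    intro a ha n y hy1 hy2
    have h5 : AlgebraicIndependent K (fun o : Option (Fin n) => o.elim (a ^ 2) y) := by
      by_contra hcon
      exact ha ⟨n, y, hy1, hy2, hcon⟩
    exact (Y388.AP.t_TOW K a (Fin n) y).mp (Y929.AQ.t_SQA K n a y h5)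
  refine ⟨_, sq_countable hmain, ?_, ?_⟩
  · intro a ha
    refine ⟨(key a ha 0 Fin.elim0 (fun i => i.elim0) (fun i => i.elim0)).1, fun n s hs hd => ?_⟩
    apply Y388.AP.t_PTS
    refine (key a ha n (fun i => (s i - 1 / 2) ^ 2) ?_ ?_).2
    · intro i j hij
      by_contra hne
      obtain ⟨h1, h2⟩ := hd i j hne
      have h3 : (s i - s j) * (s i + s j - 1) = 0 := by
        have h4 : (s i - 1 / 2) ^ 2 = (s j - 1 / 2) ^ 2 := hij
        linear_combination h4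
      rcases mul_eq_zero.mp h3 with h5 | h5
      · exact h1 (sub_eq_zero.mp h5)
      · exact h2 (sub_eq_zero.mp h5)
    · intro i
      rw [hXf, hs]
  · intro a ha
    refine Y929.AQ.t_ORD f hconj (adj K a) a fun n y hy1 hy2 => (key (a : ℂ) ha n y hy1 fun i => ?_).2
    obtain ⟨s, hs1, hs2⟩ := hy2 i
    rw [hs2, hXf, hs1]

/-! ## Products of Dirichlet L-functions -/

theorem good_xi : Good xi :=
  ⟨Y907.AP.t_SYM.2.2.1, Y340.AP.t_STRIP, Y688.AP.t_LOG⟩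

theorem good_lam {q : ℕ} [NeZero q] (χ : DirichletCharacter ℂ q) (hχ : χ ≠ 1) : Good (Lam χ) := by
  have : NeZero χ.conductor := ⟨χ.conductor_ne_zero⟩
  have hp := χ.primitiveCharacter_isPrimitive
  have hd : χ.conductor ≠ 1 := by
    intro h
    exact hχ ((DirichletCharacter.eq_one_iff_conductor_eq_one).mpr h)
  have hne : χ.primitiveCharacter ≠ 1 := by
    intro h
    apply hd
    have h1 : χ.primitiveCharacter.conductor = χ.conductor := hp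
    rw [h, DirichletCharacter.conductor_one] at h1
    exact h1.symm
  refine ⟨?_, Y312.AQ.t_CHISTRIP χ.conductor χ.primitiveCharacter hd hp,
    Y497.AQ.t_CHILOG χ.conductor χ.primitiveCharacter hd hp⟩
  have h1 : Differentiable ℂ (fun s : ℂ => (χ.conductor : ℂ) ^ (s / 2)) := by
    intro s
    have h2 : (χ.conductor : ℂ) ≠ 0 := by exact_mod_cast NeZero.ne χ.conductor
    exact ((differentiableAt_id.div_const 2).const_cpow (Or.inl h2))
  exact h1.mul (DirichletCharacter.differentiable_completedLFunction hne)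

/-- the product of `ξ` and the completed L-functions of the characters in `H` -/
noncomputable def FH {q : ℕ} [NeZero q] (H : Finset (DirichletCharacter ℂ q)) (s : ℂ) : ℂ :=
  xi s * ∏ χ ∈ H, Lam χ s

theorem good_FH {q : ℕ} [NeZero q] (H : Finset (DirichletCharacter ℂ q)) (h1 : ∀ χ ∈ H, χ ≠ 1) : Good (FH H) := by
  classical
  induction H using Finset.induction_on with
  | empty =>
    have : FH (∅ : Finset (DirichletCharacter ℂ q)) = xi := by ext s; simp [FH]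
    rw [this]; exact good_xi
  | insert χ H hχ ih =>
    have h2 : FH (insert χ H) = fun s => FH H s * Lam χ s := by
      ext s
      simp only [FH]
      rw [Finset.prod_insert hχ]
      ring
    rw [h2]
    exact Y529.AQ.t_MUL _ _ (ih fun χ' hχ' => h1 χ' (Finset.mem_insert_of_mem hχ'))
      (good_lam χ (h1 χ (Finset.mem_insert_self _ _)))

theorem fe_FH {q : ℕ} [NeZero q] (H : Finset (DirichletCharacter ℂ q)) (h1 : ∀ χ ∈ H, χ ≠ 1)
    (h2 : ∀ χ ∈ H, χ⁻¹ ∈ H) : ∃ c : ℂ, ∀ s, FH H (1 - s) = c * FH H s := by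
  have h3 : ∀ χ : DirichletCharacter ℂ q, ∃ W : ℂ, χ ≠ 1 → ∀ s : ℂ, Lam χ (1 - s) = W * Lam χ⁻¹ s := by
    intro χ
    by_cases hχ : χ = 1
    · exact ⟨0, fun h => absurd hχ h⟩
    · obtain ⟨W, hW⟩ := Y79.AQ.t_LFE q χ hχ
      exact ⟨W, fun _ => hW⟩
  choose W hW using h3
  refine ⟨∏ χ ∈ H, W χ, fun s => ?_⟩
  have h4 : ∏ χ ∈ H, Lam χ⁻¹ s = ∏ χ ∈ H, Lam χ s := by
    refine Finset.prod_bij (fun χ _ => χ⁻¹) (fun χ hχ => h2 χ hχ) (fun χ _ χ' _ h => inv_injective h) ?_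
      (fun χ _ => rfl)
    intro χ hχ
    exact ⟨χ⁻¹, h2 χ hχ, inv_inv χ⟩
  rw [FH, FH, Y907.AP.t_SYM.1, ← h4, Finset.prod_congr rfl fun χ hχ => hW χ (h1 χ hχ) s, Finset.prod_mul_distrib]
  ring

theorem conj_FH {q : ℕ} [NeZero q] (H : Finset (DirichletCharacter ℂ q)) (h1 : ∀ χ ∈ H, χ ≠ 1)
    (h2 : ∀ χ ∈ H, χ⁻¹ ∈ H) (s : ℂ) : FH H (starRingEnd ℂ s) = starRingEnd ℂ (FH H s) := by
  have h4 : ∏ χ ∈ H, Lam χ⁻¹ s = ∏ χ ∈ H, Lam χ s := by
    refine Finset.prod_bij (fun χ _ => χ⁻¹) (fun χ hχ => h2 χ hχ) (fun χ _ χ' _ h => inv_injective h) ?_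
      (fun χ _ => rfl)
    intro χ hχ
    exact ⟨χ⁻¹, h2 χ hχ, inv_inv χ⟩
  rw [FH, FH, ← h4, map_mul, map_prod, Y907.AP.t_SYM.2.1]
  congr 1
  refine Finset.prod_congr rfl fun χ hχ => ?_
  rw [Y93.AQ.t_CONJ q χ (h1 χ hχ) s, Complex.conj_conj]

theorem zero_FH {q : ℕ} [NeZero q] (H : Finset (DirichletCharacter ℂ q)) :
    ∃ t : ℝ, 0 < t ∧ FH H (1 / 2 + t * Complex.I) = 0 := by
  obtain ⟨t, ht, h⟩ := Y388.AP.t_ZERO
  exact ⟨t, ht, by rw [FH, h, zero_mul]⟩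

/-- one exceptional set for all moduli and all sets of characters -/
theorem final_all (K : Subfield ℂ) (hK : Countable K) :
    ∃ E : Set ℂ, E.Countable ∧ ∀ (q : ℕ) [NeZero q] (H : Finset (DirichletCharacter ℂ q)), (∀ χ ∈ H, χ ≠ 1) →
      (∀ χ ∈ H, χ⁻¹ ∈ H) →
      (∀ a : ℂ, a ∉ E → Transcendental K a ∧
      ∀ (n : ℕ) (s : Fin n → ℂ), (∀ i, FH H (s i) = a) → (∀ i j, i ≠ j → s i ≠ s j ∧ s i + s j ≠ 1) →
        AlgebraicIndependent (adj K a) s) ∧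
      ∀ a : ℝ, (a : ℂ) ∉ E → AlgebraicIndependent (adj K a)
        (fun γ : {γ : ℝ // 0 < γ ∧ ∃ β : ℝ, FH H ((β : ℂ) + (γ : ℂ) * Complex.I) = (a : ℂ)} => ((γ.1 : ℝ) : ℂ)) := by
  classical
  have h1 : ∀ (q : ℕ) (H : Finset (DirichletCharacter ℂ q)), ∃ E : Set ℂ, E.Countable ∧ ∀ [NeZero q], (∀ χ ∈ H, χ ≠ 1) →
      (∀ χ ∈ H, χ⁻¹ ∈ H) →
      (∀ a : ℂ, a ∉ E → Transcendental K a ∧
      ∀ (n : ℕ) (s : Fin n → ℂ), (∀ i, FH H (s i) = a) → (∀ i j, i ≠ j → s i ≠ s j ∧ s i + s j ≠ 1) →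
        AlgebraicIndependent (adj K a) s) ∧
      ∀ a : ℝ, (a : ℂ) ∉ E → AlgebraicIndependent (adj K a)
        (fun γ : {γ : ℝ // 0 < γ ∧ ∃ β : ℝ, FH H ((β : ℂ) + (γ : ℂ) * Complex.I) = (a : ℂ)} => ((γ.1 : ℝ) : ℂ)) := by
    intro q H
    by_cases hq : NeZero q
    · by_cases hH : (∀ χ ∈ H, χ ≠ 1) ∧ ∀ χ ∈ H, χ⁻¹ ∈ H
      · obtain ⟨E, hE, h3, h4⟩ := finalL (good_FH H hH.1) (fe_FH H hH.1 hH.2) (conj_FH H hH.1 hH.2) (zero_FH H) K hK
        exact ⟨E, hE, fun _ _ => ⟨h3, h4⟩⟩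
      · exact ⟨∅, Set.countable_empty, fun h5 h6 => absurd ⟨h5, h6⟩ hH⟩
    · exact ⟨∅, Set.countable_empty, fun {h} => absurd h hq⟩
  choose E hE hmain using h1
  have hfin : ∀ q : ℕ, NeZero q → Countable (Finset (DirichletCharacter ℂ q)) := by
    intro q _
    infer_instance
  refine ⟨⋃ q : ℕ, ⋃ _ : NeZero q, ⋃ H : Finset (DirichletCharacter ℂ q), E q H, ?_, ?_⟩
  · refine countable_iUnion fun q => countable_iUnion fun hq => ?_
    have := hfin q hq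
    exact countable_iUnion fun H => hE q H
  · intro q hq H h2 h3
    obtain ⟨h4, h5⟩ := hmain q H h2 h3
    have hsub : ∀ a : ℂ, a ∉ (⋃ q : ℕ, ⋃ _ : NeZero q, ⋃ H : Finset (DirichletCharacter ℂ q), E q H) → a ∉ E q H := by
      intro a ha ha'
      exact ha (mem_iUnion.mpr ⟨q, mem_iUnion.mpr ⟨hq, mem_iUnion.mpr ⟨H, ha'⟩⟩⟩)
    exact ⟨fun a ha => h4 a (hsub a ha), fun a ha => h5 a (hsub a ha)⟩

/-- the branches of the inverse function -/
theorem final_fun {q : ℕ} [NeZero q] (H : Finset (DirichletCharacter ℂ q)) (h1 : ∀ χ ∈ H, χ ≠ 1)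
    (h2 : ∀ χ ∈ H, χ⁻¹ ∈ H) (n : ℕ) (P : MvPolynomial (Option (Fin n)) ℂ) (hP : P ≠ 0) (a₀ : ℂ) (g : Fin n → ℂ → ℂ)
    (hg : ∀ i, AnalyticAt ℂ (g i) a₀) (hXg : ∀ i, ∀ᶠ a in 𝓝 a₀, FH H (g i a) = a)
    (hinj : ∀ i j, i ≠ j → g i a₀ ≠ g j a₀ ∧ g i a₀ + g j a₀ ≠ 1) :
    ∀ᶠ a in 𝓝[≠] a₀, MvPolynomial.eval (fun o : Option (Fin n) => o.elim a fun i => g i a) P ≠ 0 := by
  refine fun_of (f := FH H) (fun K hK => ?_) n P hP a₀ g hg hXg hinj
  obtain ⟨E, hE, h3, -⟩ := finalL (good_FH H h1) (fe_FH H h1 h2) (conj_FH H h1 h2) (zero_FH H) K hK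
  exact ⟨E, hE, fun a ha n s hs hd => (Y388.AP.t_TOW K a (Fin n) s).mpr ⟨(h3 a ha).1, (h3 a ha).2 n s hs hd⟩⟩

end Pool.Agent.Y922.AQ
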