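import Mathlib

/-!
# Project AP: the solutions of `ξ(s) = a` are algebraically independent for all but countably many `a`

Statements of the building blocks. `X` is an entire function of `y = (s - 1/2)^2`; later `X y = ξ(s)`.
-/

set_option autoImplicit false

open Filter Topology Set

namespace Pool.Agent.Y922.AP

/-- a real analytic lift `σ` of the curve `x ↦ exp (lam x)` over `I` -/
def Lift (X : ℂ → ℂ) (lam : ℝ → ℂ) (I : Set ℝ) (σ : ℝ → ℂ) : Prop :=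
  (∀ x ∈ I, AnalyticAt ℝ σ x) ∧ ∀ x ∈ I, X (σ x) = Complex.exp (lam x)

/-- there is no critical point over the curve -/
def NC (X : ℂ → ℂ) (lam : ℝ → ℂ) (I : Set ℝ) : Prop :=
  ∀ x ∈ I, ∀ y : ℂ, X y = Complex.exp (lam x) → deriv X y ≠ 0

/-- `X` has a continuous logarithm, which tends to infinity, on `{|X| ≥ c}` near infinity, and no critical points there -/
def LogEnd (X : ℂ → ℂ) : Prop :=
  ∀ c : ℝ, 0 < c → ∃ (ρ : ℝ) (ell : ℂ → ℂ),
    ContinuousOn ell {y | ρ ≤ ‖y‖ ∧ c ≤ ‖X y‖} ∧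
    (∀ y, ρ ≤ ‖y‖ → c ≤ ‖X y‖ → Complex.exp (ell y) = X y) ∧
    (∀ M : ℝ, ∃ ρ' : ℝ, ∀ y, ρ ≤ ‖y‖ → c ≤ ‖X y‖ → ‖ell y‖ ≤ M → ‖y‖ ≤ ρ') ∧
    (∀ y, ρ ≤ ‖y‖ → c ≤ ‖X y‖ → deriv X y ≠ 0)

/-- the inverse function `G` of `log X` on the half-plane `Re W > R`; it parametrises `{|X| > e^R}` -/
structure End (X : ℂ → ℂ) (R : ℝ) (G : ℂ → ℂ) : Prop where
  an : ∀ W : ℂ, R < W.re → AnalyticAt ℂ G W
  eq : ∀ W : ℂ, R < W.re → X (G W) = Complex.exp W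
  inj : ∀ W W' : ℂ, R < W.re → R < W'.re → G W = G W' → W = W'
  surj : ∀ y : ℂ, Real.exp R < ‖X y‖ → ∃ W : ℂ, R < W.re ∧ G W = y

/-- uniqueness of lifts -/
def S_UNIQ : Prop :=
  ∀ (X : ℂ → ℂ) (lam : ℝ → ℂ) (I : Set ℝ) (σ τ : ℝ → ℂ), Differentiable ℂ X → I.OrdConnected → Lift X lam I σ →
    Lift X lam I τ → NC X lam I → ∀ x₀ ∈ I, σ x₀ = τ x₀ → ∀ x ∈ I, σ x = τ x

/-- lifts over bounded intervals are bounded -/
def S_BDD : Prop :=
  ∀ (X : ℂ → ℂ) (lam : ℝ → ℂ) (a b : ℝ) (I : Set ℝ) (σ : ℝ → ℂ), Differentiable ℂ X → LogEnd X → Continuous lam →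
    I.OrdConnected → I ⊆ Icc a b → Lift X lam I σ → ∃ M : ℝ, ∀ x ∈ I, ‖σ x‖ ≤ M

/-- existence of lifts -/
def S_LIFT : Prop :=
  ∀ (X : ℂ → ℂ) (lam : ℝ → ℂ) (I : Set ℝ), Differentiable ℂ X → LogEnd X → (∀ x, AnalyticAt ℝ lam x) →
    I.OrdConnected → NC X lam I → ∀ x₀ ∈ I, ∀ y₀ : ℂ, X y₀ = Complex.exp (lam x₀) →
    ∃ σ : ℝ → ℂ, Lift X lam I σ ∧ σ x₀ = y₀

/-- lifts of outward rays end in the functions `G(W + 2 π i k)` -/
def S_INF : Prop :=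
  ∀ (X : ℂ → ℂ) (R : ℝ) (G : ℂ → ℂ), Differentiable ℂ X → End X R G → ∀ (w₀ : ℂ) (x₀ : ℝ) (σ : ℝ → ℂ),
    Lift X (fun x => (x : ℂ) + w₀) (Ioi x₀) σ →
    ∃ k : ℤ, ∀ x : ℝ, x₀ < x → R < x + w₀.re → σ x = G ((x : ℂ) + w₀ + 2 * Real.pi * Complex.I * k)

/-- the family `exp W`, `G (W + 2 π i k)` -/
noncomputable def fam (G : ℂ → ℂ) (W : ℂ) : Option ℤ → ℂ
  | none => Complex.exp W
  | some k => G (W + 2 * Real.pi * Complex.I * k)

/-- replace the index `k₀` by `k₁` -/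
def stp (k₀ k₁ : ℤ) : Option ℤ → Option ℤ
  | none => none
  | some k => some (if k = k₀ then k₁ else k)

/-- shift all indices by `M` -/
def sft (M : ℤ) : Option ℤ → Option ℤ
  | none => none
  | some k => some (k + M)

/-- the step at a critical value of largest modulus -/
def S_CRIT : Prop :=
  ∀ (X : ℂ → ℂ) (R : ℝ) (G : ℂ → ℂ), Differentiable ℂ X → LogEnd X → End X R G →
    ∀ (w : ℂ) (yc : ℂ), X yc = Complex.exp w → deriv X yc = 0 →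
      (∀ y : ℂ, deriv X y = 0 → ‖X y‖ ≤ Real.exp w.re) →
    ∃ (k₀ k₁ : ℤ) (Bd : Finset ℤ), k₀ < k₁ ∧ ∀ Q : MvPolynomial (Option ℤ) ℂ,
      (∀ k : ℤ, some k ∈ Q.vars → k = k₀ ∨ k ∉ Bd) →
      (∀ W : ℂ, R < W.re → MvPolynomial.eval (fam G W) Q = 0) →
      ∀ W : ℂ, R < W.re → MvPolynomial.eval (fun o => fam G W (stp k₀ k₁ o)) Q = 0

/-- the algebraic lemma: a sequence whose relations over `K` are invariant under shifts and under one step is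
algebraically independent -/
def S_ALG : Prop :=
  ∀ (K : Subfield ℂ) (z : ℤ → ℂ), Function.Injective z →
    (∀ (M : ℤ) (P : MvPolynomial ℤ K), MvPolynomial.aeval z P = 0 → MvPolynomial.aeval (fun k => z (k + M)) P = 0) →
    ∀ (k₀ k₁ : ℤ) (Bd : Finset ℤ), k₀ < k₁ →
    (∀ P : MvPolynomial ℤ K, (∀ k ∈ P.vars, k = k₀ ∨ k ∉ Bd) → MvPolynomial.aeval z P = 0 →
      MvPolynomial.aeval (fun k => z (if k = k₀ then k₁ else k)) P = 0) →
    AlgebraicIndependent K z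

/-- the field `K(a)` -/
noncomputable def adj (K : Subfield ℂ) (a : ℂ) : Subfield ℂ := Subfield.closure ((K : Set ℂ) ∪ {a})

/-- polynomials over `K(a)` and polynomials over `K` with one more variable -/
def S_BRI : Prop :=
  ∀ (K : Subfield ℂ) (a : ℂ) (ι : Type) (P : MvPolynomial ι (adj K a)),
    ∃ (P' : MvPolynomial (Option ι) K) (d : ℂ), d ≠ 0 ∧ (∀ k : ι, some k ∈ P'.vars → k ∈ P.vars) ∧
      ∀ z : ι → ℂ, MvPolynomial.aeval (fun o : Option ι => o.elim a z) P' = d * MvPolynomial.aeval z P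

/-- algebraic independence over `K(a)` -/
def S_TOW : Prop :=
  ∀ (K : Subfield ℂ) (a : ℂ) (ι : Type) (z : ι → ℂ),
    AlgebraicIndependent K (fun o : Option ι => o.elim a z) ↔ (Transcendental K a ∧ AlgebraicIndependent (adj K a) z)

/-- a generic point of the half-plane -/
def S_GEN : Prop :=
  ∀ (K : Subfield ℂ), Countable K → ∀ (ι : Type), Countable ι → ∀ (R : ℝ) (g : ι → ℂ → ℂ),
    (∀ k, ∀ W : ℂ, R < W.re → AnalyticAt ℂ (g k) W) →
    ∃ W₀ : ℂ, R < W₀.re ∧ ∀ P : MvPolynomial ι K, MvPolynomial.aeval (fun k => g k W₀) P = 0 →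
      ∀ W : ℂ, R < W.re → MvPolynomial.aeval (fun k => g k W) P = 0

/-- from numerical relations at uncountably many values to a relation between local inverse functions -/
def S_COND : Prop :=
  ∀ (X : ℂ → ℂ), Differentiable ℂ X → (∃ y, deriv X y ≠ 0) →
    ∀ (K : Subfield ℂ) (n : ℕ) (P : MvPolynomial (Option (Fin n)) K),
    ¬ {a : ℂ | ∃ y : Fin n → ℂ, Function.Injective y ∧ (∀ i, X (y i) = a) ∧
        MvPolynomial.aeval (fun o : Option (Fin n) => o.elim a y) P = 0}.Countable →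
    ∃ (a₀ : ℂ) (δ : ℝ) (g : Fin n → ℂ → ℂ), 0 < δ ∧
      (∀ i, ∀ a ∈ Metric.ball a₀ δ, AnalyticAt ℂ (g i) a ∧ X (g i a) = a) ∧
      (∀ a ∈ Metric.ball a₀ δ, Function.Injective fun i => g i a) ∧
      ∀ a ∈ Metric.ball a₀ δ, MvPolynomial.aeval (fun o : Option (Fin n) => o.elim a fun i => g i a) P = 0

/-- the general theorem -/
def S_MAIN : Prop :=
  ∀ (X : ℂ → ℂ) (R : ℝ) (G : ℂ → ℂ), Differentiable ℂ X → LogEnd X → End X R G →
    (∃ y, deriv X y = 0 ∧ X y ≠ 0) → ∀ (K : Subfield ℂ), Countable K →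
    {a : ℂ | ∃ (n : ℕ) (y : Fin n → ℂ), Function.Injective y ∧ (∀ i, X (y i) = a) ∧
      ¬ AlgebraicIndependent K (fun o : Option (Fin n) => o.elim a y)}.Countable

/-! ## The Riemann xi function -/

/-- the Riemann xi function `s (s - 1) π^(-s/2) Γ(s/2) ζ(s) / 2` -/
noncomputable def xi (s : ℂ) : ℂ := (s * (s - 1) * completedRiemannZeta₀ s + 1) / 2

/-- the entire function of `(s - 1/2)^2` -/
def S_SQ : Prop := ∃ X : ℂ → ℂ, Differentiable ℂ X ∧ ∀ s : ℂ, X ((s - 1 / 2) ^ 2) = xi s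

/-- decay in vertical strips -/
def S_STRIP : Prop := ∀ c b : ℝ, 0 < c → ∃ T : ℝ, ∀ s : ℂ, |s.re| ≤ b → T ≤ |s.im| → ‖xi s‖ < c

/-- the logarithm in a right half-plane -/
def S_LOG : Prop :=
  ∃ (σ₀ : ℝ) (L : ℂ → ℂ), 1 ≤ σ₀ ∧ ∀ s : ℂ, σ₀ < s.re →
    AnalyticAt ℂ L s ∧ Complex.exp (L s) = xi s ∧ 1 ≤ (deriv L s).re

/-- a zero on the critical line -/
def S_ZERO : Prop := ∃ t : ℝ, 0 < t ∧ xi (1 / 2 + t * Complex.I) = 0

/-- symmetries -/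
def S_SYM : Prop :=
  (∀ s : ℂ, xi (1 - s) = xi s) ∧ (∀ s : ℂ, xi (starRingEnd ℂ s) = starRingEnd ℂ (xi s)) ∧ Differentiable ℂ xi ∧
    xi 1 = 1 / 2

/-- a critical point with nonzero value -/
def S_T3 : Prop := ∀ X : ℂ → ℂ, Differentiable ℂ X → (∀ s : ℂ, X ((s - 1 / 2) ^ 2) = xi s) →
  ∃ y, deriv X y = 0 ∧ X y ≠ 0

/-- the behaviour near infinity -/
def S_T1 : Prop := ∀ X : ℂ → ℂ, Differentiable ℂ X → (∀ s : ℂ, X ((s - 1 / 2) ^ 2) = xi s) → LogEnd X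

/-- the inverse function near infinity -/
def S_T2 : Prop := ∀ X : ℂ → ℂ, Differentiable ℂ X → (∀ s : ℂ, X ((s - 1 / 2) ^ 2) = xi s) →
  ∃ (R : ℝ) (G : ℂ → ℂ), End X R G

/-- the algebra of ordinates: from the points to their imaginary parts -/
def S_ORD : Prop :=
  ∀ (K : Subfield ℂ) (a : ℝ),
    (∀ (n : ℕ) (y : Fin n → ℂ), Function.Injective y → (∀ i, ∃ s : ℂ, xi s = a ∧ y i = (s - 1 / 2) ^ 2) →
      AlgebraicIndependent K y) →
    AlgebraicIndependent K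
      (fun γ : {γ : ℝ // 0 < γ ∧ ∃ β : ℝ, xi ((β : ℂ) + (γ : ℂ) * Complex.I) = (a : ℂ)} => ((γ.1 : ℝ) : ℂ))

/-- from squares to the points -/
def S_PTS : Prop :=
  ∀ (K : Subfield ℂ) (n : ℕ) (s : Fin n → ℂ), AlgebraicIndependent K (fun i => (s i - 1 / 2) ^ 2) →
    AlgebraicIndependent K s

/-- from `ℂ` to `ℝ` over the rational numbers -/
def S_REAL : Prop :=
  ∀ (K : Subfield ℂ) (ι : Type) (g : ι → ℝ), AlgebraicIndependent K (fun i => (g i : ℂ)) → AlgebraicIndependent ℚ g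

end Pool.Agent.Y922.AP
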