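import Pool.Agent.Y922.AP.Ram

/-!
# Project AP: the branches over an outward ray
-/

set_option autoImplicit false

open Filter Topology Set

namespace Pool.Agent.Y922.AP

/-- the outward ray starting at `w` -/
noncomputable def ray (w : ℂ) : ℝ → ℂ := fun x => (x : ℂ) + w

theorem ofReal_an (x : ℝ) : AnalyticAt ℝ (fun x : ℝ => (x : ℂ)) x := Complex.ofRealCLM.analyticAt x

theorem ray_an (w : ℂ) (x : ℝ) : AnalyticAt ℝ (ray w) x := (ofReal_an x).add analyticAt_const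

theorem comp_ray {f : ℂ → ℂ} {w : ℂ} {x : ℝ} (hf : AnalyticAt ℂ f ((x : ℂ) + w)) :
    AnalyticAt ℝ (fun x : ℝ => f ((x : ℂ) + w)) x := by
  have h : AnalyticAt ℝ f (ray w x) := hf.restrictScalars
  exact AnalyticAt.comp (f := ray w) h (ray_an w x)

theorem exp_shift (z : ℂ) (k : ℤ) : Complex.exp (z + 2 * Real.pi * Complex.I * k) = Complex.exp z := by
  rw [Complex.exp_eq_exp_iff_exists_int]
  exact ⟨k, by ring⟩

theorem Lift.mono {X : ℂ → ℂ} {lam : ℝ → ℂ} {I J : Set ℝ} {σ : ℝ → ℂ} (h : Lift X lam I σ) (hJ : J ⊆ I) :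
    Lift X lam J σ := ⟨fun x hx => h.1 x (hJ hx), fun x hx => h.2 x (hJ hx)⟩

theorem NC.mono {X : ℂ → ℂ} {lam : ℝ → ℂ} {I J : Set ℝ} (h : NC X lam I) (hJ : J ⊆ I) :
    NC X lam J := fun x hx => h x (hJ hx)

theorem norm_exp_ray (x : ℝ) (w : ℂ) : ‖Complex.exp ((x : ℂ) + w)‖ = Real.exp (x + w.re) := by
  rw [Complex.norm_exp]; simp

theorem nc_ray {X : ℂ → ℂ} {w : ℂ} (h : ∀ y : ℂ, deriv X y = 0 → ‖X y‖ ≤ Real.exp w.re) : NC X (ray w) (Ioi 0) := by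
  intro x hx y hy hd
  have h1 := h y hd
  rw [hy, ray, norm_exp_ray] at h1
  have h2 : (0 : ℝ) < x := hx
  have := Real.exp_le_exp.mp h1
  linarith

/-- the `k`-th branch continued along the ray -/
theorem branch {X : ℂ → ℂ} {R : ℝ} {G : ℂ → ℂ} (h1 : S_UNIQ) (h3 : S_LIFT) (hX : Differentiable ℂ X) (hL : LogEnd X)
    (hG : End X R G) {w : ℂ} (hnc : NC X (ray w) (Ioi 0)) (k : ℤ) :
    ∃ σ : ℝ → ℂ, Lift X (ray w) (Ioi 0) σ ∧
      ∀ x : ℝ, 0 < x → R < x + w.re → σ x = G ((x : ℂ) + w + 2 * Real.pi * Complex.I * k) := by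
  have hre : ∀ x : ℝ, ((x : ℂ) + w + 2 * Real.pi * Complex.I * k).re = x + w.re := by
    intro x; simp
  set b : ℝ := max 0 (R - w.re) with hb
  have hb1 : 0 ≤ b := le_max_left _ _
  have hb2 : R - w.re ≤ b := le_max_right _ _
  have hx0 : b + 1 ∈ Ioi (0 : ℝ) := by show (0 : ℝ) < b + 1; linarith
  obtain ⟨σ, hσ, hσ0⟩ := h3 X (ray w) (Ioi 0) hX hL (ray_an w) ordConnected_Ioi hnc (b + 1) hx0
    (G (((b + 1 : ℝ) : ℂ) + w + 2 * Real.pi * Complex.I * k)) (by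
      rw [hG.eq _ (by rw [hre]; linarith), exp_shift]; rfl)
  refine ⟨σ, hσ, ?_⟩
  have hsub : Ioi b ⊆ Ioi (0 : ℝ) := fun x hx => lt_of_le_of_lt hb1 hx
  have hτ : Lift X (ray w) (Ioi b) (fun x : ℝ => G ((x : ℂ) + w + 2 * Real.pi * Complex.I * k)) := by
    refine ⟨fun x hx => ?_, fun x hx => ?_⟩
    · have hx' : b < x := hx
      have h5 : AnalyticAt ℂ (fun z : ℂ => G (z + 2 * Real.pi * Complex.I * k)) ((x : ℂ) + w) := by
        have h6 := hG.an ((x : ℂ) + w + 2 * Real.pi * Complex.I * k) (by rw [hre]; linarith)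
        exact AnalyticAt.comp (f := fun z : ℂ => z + 2 * Real.pi * Complex.I * k) h6 (analyticAt_id.add analyticAt_const)
      exact comp_ray h5
    · have hx' : b < x := hx
      rw [hG.eq _ (by rw [hre]; linarith), exp_shift]; rfl
  intro x hx1 hx2
  have hxb : x ∈ Ioi b := by
    show max 0 (R - w.re) < x
    exact max_lt hx1 (by linarith)
  exact h1 X (ray w) (Ioi b) σ _ hX ordConnected_Ioi (hσ.mono hsub) hτ (hnc.mono hsub) (b + 1)
    (by show b < b + 1; linarith) hσ0 x hxb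

/-- two lifts over the whole ray that agree at one point agree -/
theorem lift_eq {X : ℂ → ℂ} (h1 : S_UNIQ) (hX : Differentiable ℂ X) {w : ℂ} (hnc : NC X (ray w) (Ioi 0))
    {σ τ : ℝ → ℂ} (hσ : Lift X (ray w) (Ioi 0) σ) (hτ : Lift X (ray w) (Ioi 0) τ) (h : ∃ᶠ x in 𝓝[>] (0 : ℝ), σ x = τ x) :
    ∀ x, 0 < x → σ x = τ x := by
  obtain ⟨x, hx, hx0⟩ := (h.and_eventually self_mem_nhdsWithin).exists
  intro x' hx'
  exact h1 X (ray w) (Ioi 0) σ τ hX ordConnected_Ioi hσ hτ hnc x hx0 hx x' hx'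

/-- a lift over the ray and a lift over a short interval -/
theorem lift_eq_ev {X : ℂ → ℂ} (h1 : S_UNIQ) (hX : Differentiable ℂ X) {w : ℂ} (hnc : NC X (ray w) (Ioi 0))
    {σ τ : ℝ → ℂ} (hσ : Lift X (ray w) (Ioi 0) σ) (hτ : ∀ᶠ x in 𝓝[>] (0 : ℝ), AnalyticAt ℝ τ x ∧ X (τ x) = Complex.exp (ray w x))
    (h : ∃ᶠ x in 𝓝[>] (0 : ℝ), σ x = τ x) :
    ∀ᶠ x in 𝓝[>] (0 : ℝ), σ x = τ x := by
  obtain ⟨δ, hδ, hδ2⟩ := (mem_nhdsGT_iff_exists_Ioo_subset).mp hτ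
  have hδ0 : (0 : ℝ) < δ := hδ
  have hmem : Ioo (0 : ℝ) δ ∈ 𝓝[>] (0 : ℝ) := Ioo_mem_nhdsGT hδ0
  obtain ⟨x, hx, hx0⟩ := (h.and_eventually hmem).exists
  have hsub : Ioo (0 : ℝ) δ ⊆ Ioi 0 := fun x hx => hx.1
  filter_upwards [hmem] with x' hx'
  exact h1 X (ray w) (Ioo 0 δ) σ τ hX ordConnected_Ioo (hσ.mono hsub)
    ⟨fun x hx => (hδ2 hx).1, fun x hx => (hδ2 hx).2⟩ (hnc.mono hsub) x hx0 hx x' hx'

/-- a lift over the ray is bounded near `0` and has a cluster point -/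
theorem cluster {X : ℂ → ℂ} (h2 : S_BDD) (hX : Differentiable ℂ X) (hL : LogEnd X) {w : ℂ}
    {σ : ℝ → ℂ} (hσ : Lift X (ray w) (Ioi 0) σ) :
    ∃ y : ℂ, MapClusterPt y (𝓝[>] (0 : ℝ)) σ ∧ X y = Complex.exp w := by
  obtain ⟨M, hM⟩ := h2 X (ray w) 0 1 (Ioc 0 1) σ hX hL
    (continuous_iff_continuousAt.mpr fun x => (ray_an w x).continuousAt) ordConnected_Ioc Ioc_subset_Icc_self
    (hσ.mono fun x hx => hx.1)
  have hmem : Ioc (0 : ℝ) 1 ∈ 𝓝[>] (0 : ℝ) := Ioc_mem_nhdsGT one_pos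
  have hcpt : IsCompact (Metric.closedBall (0 : ℂ) M) := isCompact_closedBall _ _
  have hev : ∀ᶠ x in 𝓝[>] (0 : ℝ), σ x ∈ Metric.closedBall (0 : ℂ) M := by
    filter_upwards [hmem] with x hx
    simpa using hM x hx
  obtain ⟨y, -, hy⟩ := hcpt.exists_mapClusterPt (f := 𝓝[>] (0 : ℝ)) (u := σ) (by
    rw [Filter.le_principal_iff, Filter.mem_map]; exact hev)
  refine ⟨y, hy, ?_⟩
  have h5 : MapClusterPt (X y) (𝓝[>] (0 : ℝ)) (X ∘ σ) := hy.continuousAt_comp hX.continuous.continuousAt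
  have h6 : Tendsto (X ∘ σ) (𝓝[>] (0 : ℝ)) (𝓝 (Complex.exp w)) := by
    have h7 : Tendsto (fun x : ℝ => Complex.exp ((x : ℂ) + w)) (𝓝[>] (0 : ℝ)) (𝓝 (Complex.exp w)) := by
      have h8 : ContinuousAt (fun x : ℝ => Complex.exp ((x : ℂ) + w)) 0 := by fun_prop
      have h9 := h8.tendsto
      simp only [Complex.ofReal_zero, zero_add] at h9
      exact h9.mono_left nhdsWithin_le_nhds
    refine h7.congr' ?_
    filter_upwards [self_mem_nhdsWithin] with x hx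
    exact (hσ.2 x hx).symm
  have h7 : ClusterPt (X y) (map (X ∘ σ) (𝓝[>] (0 : ℝ))) := h5
  exact eq_of_nhds_neBot (h7.mono h6)

/-- behaviour at a noncritical cluster point -/
theorem good_end {X : ℂ → ℂ} (h1 : S_UNIQ) (hX : Differentiable ℂ X) {w : ℂ}
    (hnc : NC X (ray w) (Ioi 0)) {σ : ℝ → ℂ} (hσ : Lift X (ray w) (Ioi 0) σ) {y : ℂ} (hy : MapClusterPt y (𝓝[>] (0 : ℝ)) σ)
    (hyw : X y = Complex.exp w) (hd : deriv X y ≠ 0) :
    ∃ h : ℂ → ℂ, AnalyticAt ℂ h (Complex.exp w) ∧ ∀ᶠ x in 𝓝[>] (0 : ℝ), σ x = h (Complex.exp ((x : ℂ) + w)) := by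
  obtain ⟨h, hh, hhy, hl, hr⟩ := loc_inv (hX.analyticAt y) hd
  rw [hyw] at hh hr
  refine ⟨h, hh, ?_⟩
  have htd : Tendsto (fun x : ℝ => Complex.exp ((x : ℂ) + w)) (𝓝[>] (0 : ℝ)) (𝓝 (Complex.exp w)) := by
    have h8 : ContinuousAt (fun x : ℝ => Complex.exp ((x : ℂ) + w)) 0 := by fun_prop
    have h9 := h8.tendsto
    simp only [Complex.ofReal_zero, zero_add] at h9
    exact h9.mono_left nhdsWithin_le_nhds
  apply lift_eq_ev (τ := fun x : ℝ => h (Complex.exp ((x : ℂ) + w))) h1 hX hnc hσ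
  · filter_upwards [htd.eventually hh.eventually_analyticAt, htd.eventually hr] with x hx1 hx2
    refine ⟨?_, hx2⟩
    have h10 : AnalyticAt ℂ (fun z => h (Complex.exp z)) ((x : ℂ) + w) :=
      AnalyticAt.comp (f := Complex.exp) hx1 (Complex.differentiable_exp.analyticAt _)
    exact comp_ray h10
  · have h11 : ∃ᶠ x in 𝓝[>] (0 : ℝ), h (X (σ x)) = σ x := hy.frequently hl
    refine (h11.and_eventually self_mem_nhdsWithin).mono ?_
    rintro x ⟨hx1, hx2⟩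
    have := hσ.2 x hx2
    rw [this] at hx1
    exact hx1.symm

end Pool.Agent.Y922.AP
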