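import Pool.Agent.Y922.AP.Crt

/-!
# Project AP: the step at a critical value
-/

set_option autoImplicit false

open Filter Topology Set

namespace Pool.Agent.Y922.AP

theorem rm_of {X : ℂ → ℂ} (hX : Differentiable ℂ X) (hne : ∃ y, deriv X y ≠ 0) {w yc : ℂ} (h : X yc = Complex.exp w)
    (hd : deriv X yc = 0) : Nonempty (Rm X yc w) := by
  have hnc : ¬ ∀ᶠ z in 𝓝 yc, X z = X yc := by
    intro hev
    obtain ⟨y, hy⟩ := hne
    have h1 : (fun z => X z) = fun _ => X yc := by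
      have ha : AnalyticOnNhd ℂ X univ := fun z _ => hX.analyticAt z
      have hb : AnalyticOnNhd ℂ (fun _ : ℂ => X yc) univ := fun z _ => analyticAt_const
      exact ha.eq_of_eventuallyEq hb hev
    apply hy
    have h2 : X = fun _ => X yc := h1
    rw [h2]; simp
  obtain ⟨m, ψ, φ, hm, hψ, hφ, hφ0, hψ0, hX', hl, hr⟩ := ram (hX.analyticAt yc) hnc hd
  rw [h] at hX'
  exact ⟨⟨m, ψ, φ, hm, hψ, hφ, hφ0, hψ0, hX', hl, hr⟩⟩

/-- the critical points over a nonzero value are finitely many -/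
theorem crit_fin {X : ℂ → ℂ} (hX : Differentiable ℂ X) (hL : LogEnd X) (w : ℂ) (hne : ∃ y, deriv X y ≠ 0) :
    {y : ℂ | X y = Complex.exp w ∧ deriv X y = 0}.Finite := by
  obtain ⟨ρ, ell, -, -, -, h4⟩ := hL (Real.exp w.re) (Real.exp_pos _)
  by_contra hinf
  have hsub : {y : ℂ | X y = Complex.exp w ∧ deriv X y = 0} ⊆ Metric.closedBall 0 ρ := by
    rintro y ⟨hy1, hy2⟩
    by_contra hy3
    rw [Metric.mem_closedBall, dist_zero_right, not_le] at hy3
    refine h4 y hy3.le ?_ hy2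
    rw [hy1, Complex.norm_exp]
  obtain ⟨y, -, hy⟩ := Set.Infinite.exists_accPt_of_subset_isCompact hinf (isCompact_closedBall 0 ρ) hsub
  have hfr : ∃ᶠ z in 𝓝[≠] y, deriv X z = 0 := by
    have h5 : ∃ᶠ z in 𝓝[≠] y, z ∈ {y : ℂ | X y = Complex.exp w ∧ deriv X y = 0} := accPt_iff_frequently_nhdsNE.mp hy
    exact h5.mono fun z hz => hz.2
  have ha : AnalyticOnNhd ℂ (deriv X) univ := fun z _ => (hX.analyticAt z).deriv
  obtain ⟨z, hz⟩ := hne
  exact hz (ha.eqOn_zero_of_preconnected_of_frequently_eq_zero isPreconnected_univ (mem_univ y) hfr (mem_univ z))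

/-- evaluation at analytic families is analytic -/
theorem eval_an {𝕜 : Type} [NontriviallyNormedField 𝕜] {E : Type} [NormedAddCommGroup E] [NormedSpace 𝕜 E]
    {A : Type} [NormedField A] [NormedAlgebra 𝕜 A]
    {ι : Type} (Q : MvPolynomial ι A) (s : ι → E → A) (x : E)
    (h : ∀ k ∈ Q.vars, AnalyticAt 𝕜 (s k) x) : AnalyticAt 𝕜 (fun x => MvPolynomial.eval (fun k => s k x) Q) x := by
  have h1 : (fun x => MvPolynomial.eval (fun k => s k x) Q) =
      fun x => ∑ d ∈ Q.support, Q.coeff d * ∏ i ∈ d.support, s i x ^ d i := by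
    ext x; rw [MvPolynomial.eval_eq]
  rw [h1]
  refine Finset.analyticAt_fun_sum _ fun d hd => analyticAt_const.mul (Finset.analyticAt_fun_prod _ fun i hi => ?_)
  exact (h i (MvPolynomial.mem_vars_iff_mem_support i |>.mpr ⟨d, hd, hi⟩)).pow _

theorem eval_congr {ι A : Type} [CommRing A] (Q : MvPolynomial ι A) {f g : ι → A} (h : ∀ k ∈ Q.vars, f k = g k) :
    MvPolynomial.eval f Q = MvPolynomial.eval g Q :=
  MvPolynomial.eval₂Hom_congr' rfl (fun i hi _ => h i hi) rfl

end Pool.Agent.Y922.AP
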