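import Pool.Agent.Y922.AP.Br

/-!
# Project AP: the lifts near a critical point
-/

set_option autoImplicit false

open Filter Topology Set

namespace Pool.Agent.Y922.AP

/-- the root `(e^z - 1)^(1/m)` -/
noncomputable def rt (m : ℕ) (w : ℂ) (z : ℂ) : ℂ := Complex.exp (w / m) * (Complex.exp z - 1) ^ ((m : ℂ)⁻¹)

theorem rt_pow {m : ℕ} (hm : m ≠ 0) (w : ℂ) (x : ℝ) :
    rt m w x ^ m = Complex.exp ((x : ℂ) + w) - Complex.exp w := by
  have hmC : (m : ℂ) ≠ 0 := by exact_mod_cast hm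
  rw [rt, mul_pow, Complex.cpow_nat_inv_pow _ hm, ← Complex.exp_nat_mul, mul_div_cancel₀ _ hmC, Complex.exp_add]
  ring

theorem rt_ne {m : ℕ} (hm : m ≠ 0) (w : ℂ) {x : ℝ} (hx : 0 < x) : rt m w x ≠ 0 := by
  intro h
  have h1 := rt_pow hm w x
  rw [h, zero_pow hm, Complex.exp_add] at h1
  have h2 : Complex.exp w * (Complex.exp x - 1) = 0 := by linear_combination -h1
  rcases mul_eq_zero.mp h2 with h3 | h3
  · exact Complex.exp_ne_zero _ h3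
  · have h4 : Real.exp x = 1 := by
      have : Complex.exp (x : ℂ) = 1 := by linear_combination h3
      exact_mod_cast this
    have := Real.add_one_lt_exp hx.ne'
    linarith

theorem rt_an {m : ℕ} (w : ℂ) {x : ℝ} (hx : 0 < x) : AnalyticAt ℂ (rt m w) x := by
  have h1 : AnalyticAt ℂ (fun z : ℂ => Complex.exp z - 1) x :=
    (Complex.differentiable_exp.analyticAt _).sub analyticAt_const
  have h2 : (fun z : ℂ => Complex.exp z - 1) x ∈ Complex.slitPlane := by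
    left
    show 0 < (Complex.exp x - 1).re
    rw [← Complex.ofReal_exp]
    have := Real.add_one_lt_exp hx.ne'
    simp only [Complex.sub_re, Complex.ofReal_re, Complex.one_re]
    linarith
  exact analyticAt_const.mul (h1.cpow analyticAt_const h2)

theorem rt_tendsto {m : ℕ} (hm : m ≠ 0) (w : ℂ) : Tendsto (fun x : ℝ => rt m w x) (𝓝[>] (0 : ℝ)) (𝓝 0) := by
  have h1 : Tendsto (fun x : ℝ => ‖rt m w x‖ ^ m) (𝓝[>] (0 : ℝ)) (𝓝 0) := by
    have h2 : ContinuousAt (fun x : ℝ => ‖Complex.exp ((x : ℂ) + w) - Complex.exp w‖) 0 := by fun_prop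
    have h3 := h2.tendsto
    simp only [Complex.ofReal_zero, zero_add, sub_self, norm_zero] at h3
    refine (h3.mono_left nhdsWithin_le_nhds).congr fun x => ?_
    rw [← rt_pow hm, norm_pow]
  rw [tendsto_zero_iff_norm_tendsto_zero]
  have h4 : Tendsto (fun x : ℝ => (‖rt m w x‖ ^ m) ^ ((m : ℝ)⁻¹)) (𝓝[>] (0 : ℝ)) (𝓝 (0 ^ ((m : ℝ)⁻¹))) :=
    h1.rpow_const (Or.inr (by positivity))
  have hmR : (m : ℝ) ≠ 0 := by exact_mod_cast hm
  rw [Real.zero_rpow (by positivity)] at h4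
  refine h4.congr fun x => ?_
  exact Real.pow_rpow_inv_natCast (norm_nonneg _) hm

/-- the data at a critical point -/
structure Rm (X : ℂ → ℂ) (yc : ℂ) (w : ℂ) where
  m : ℕ
  ψ : ℂ → ℂ
  φ : ℂ → ℂ
  hm : 2 ≤ m
  hψ : AnalyticAt ℂ ψ yc
  hφ : AnalyticAt ℂ φ 0
  hφ0 : φ 0 = yc
  hψ0 : ψ yc = 0
  hX : ∀ᶠ y in 𝓝 yc, X y = Complex.exp w + ψ y ^ m
  hl : ∀ᶠ y in 𝓝 yc, φ (ψ y) = y
  hr : ∀ᶠ u in 𝓝 (0 : ℂ), ψ (φ u) = u

namespace Rm

variable {X : ℂ → ℂ} {yc w : ℂ} (D : Rm X yc w)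

theorem hm0 : D.m ≠ 0 := by have := D.hm; omega

theorem ev_X : ∀ᶠ u in 𝓝 (0 : ℂ), X (D.φ u) = Complex.exp w + u ^ D.m := by
  have h1 : Tendsto D.φ (𝓝 0) (𝓝 yc) := by
    have := D.hφ.continuousAt.tendsto
    rwa [D.hφ0] at this
  filter_upwards [h1.eventually D.hX, D.hr] with u hu1 hu2
  rw [hu1, hu2]

theorem tends {ζ : ℂ} : Tendsto (fun x : ℝ => ζ * rt D.m w x) (𝓝[>] (0 : ℝ)) (𝓝 0) := by
  have := (rt_tendsto D.hm0 w).const_mul ζ
  simpa using this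

/-- the local lifts are eventually lifts -/
theorem kap {ζ : ℂ} (hζ : ζ ^ D.m = 1) : ∀ᶠ x in 𝓝[>] (0 : ℝ),
    AnalyticAt ℝ (fun x : ℝ => D.φ (ζ * rt D.m w x)) x ∧ X (D.φ (ζ * rt D.m w x)) = Complex.exp (ray w x) := by
  filter_upwards [D.tends.eventually D.hφ.eventually_analyticAt, D.tends.eventually D.ev_X,
    self_mem_nhdsWithin] with x hx1 hx2 hx3
  have hx0 : (0 : ℝ) < x := hx3
  constructor
  · have h1 : AnalyticAt ℂ (fun z : ℂ => D.φ (ζ * rt D.m w z)) x :=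
      AnalyticAt.comp (f := fun z : ℂ => ζ * rt D.m w z) hx1 (analyticAt_const.mul (rt_an w hx0))
    have h2 : AnalyticAt ℝ (fun z : ℂ => D.φ (ζ * rt D.m w z)) ((fun x : ℝ => (x : ℂ)) x) := h1.restrictScalars
    exact AnalyticAt.comp (f := fun x : ℝ => (x : ℂ)) h2 (ofReal_an x)
  · rw [hx2, mul_pow, hζ, rt_pow D.hm0, ray]; ring

/-- a lift with cluster point `yc` is one of the local lifts -/
theorem of_cluster (h1 : S_UNIQ) (hX : Differentiable ℂ X) (hnc : NC X (ray w) (Ioi 0)) {σ : ℝ → ℂ}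
    (hσ : Lift X (ray w) (Ioi 0) σ) (hy : MapClusterPt yc (𝓝[>] (0 : ℝ)) σ) :
    ∃ ζ : ℂ, ζ ^ D.m = 1 ∧ ∀ᶠ x in 𝓝[>] (0 : ℝ), σ x = D.φ (ζ * rt D.m w x) := by
  -- a common interval for all `ζ`
  obtain ⟨ε, hε, hε2⟩ := Metric.eventually_nhds_iff_ball.mp (D.hφ.eventually_analyticAt.and D.ev_X)
  have hsm : ∀ᶠ x : ℝ in 𝓝[>] (0 : ℝ), rt D.m w x ∈ Metric.ball (0 : ℂ) ε :=
    (rt_tendsto D.hm0 w).eventually (Metric.ball_mem_nhds _ hε)
  obtain ⟨δ, hδ, hδ2⟩ := (mem_nhdsGT_iff_exists_Ioo_subset).mp hsm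
  have hδ0 : (0 : ℝ) < δ := hδ
  have hlift : ∀ ζ : ℂ, ζ ^ D.m = 1 → Lift X (ray w) (Ioo 0 δ) (fun x : ℝ => D.φ (ζ * rt D.m w x)) := by
    intro ζ hζ
    have hn : ‖ζ‖ = 1 := Complex.norm_eq_one_of_pow_eq_one hζ D.hm0
    have hin : ∀ x ∈ Ioo 0 δ, ζ * rt D.m w x ∈ Metric.ball (0 : ℂ) ε := by
      intro x hx
      have := hδ2 hx
      simp only [mem_ofPred_eq, Metric.mem_ball, dist_zero_right] at this ⊢
      rwa [norm_mul, hn, one_mul]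
    refine ⟨fun x hx => ?_, fun x hx => ?_⟩
    · have h1 : AnalyticAt ℂ (fun z : ℂ => D.φ (ζ * rt D.m w z)) x :=
        AnalyticAt.comp (f := fun z : ℂ => ζ * rt D.m w z) (hε2 _ (hin x hx)).1
          (analyticAt_const.mul (rt_an w (show (0 : ℝ) < x from hx.1)))
      have h2 : AnalyticAt ℝ (fun z : ℂ => D.φ (ζ * rt D.m w z)) ((fun x : ℝ => (x : ℂ)) x) := h1.restrictScalars
      exact AnalyticAt.comp (f := fun x : ℝ => (x : ℂ)) h2 (ofReal_an x)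
    · rw [(hε2 _ (hin x hx)).2, mul_pow, hζ, rt_pow D.hm0, ray]; ring
  have hfr : ∃ᶠ x in 𝓝[>] (0 : ℝ), X (σ x) = Complex.exp w + D.ψ (σ x) ^ D.m ∧ D.φ (D.ψ (σ x)) = σ x :=
    hy.frequently (D.hX.and D.hl)
  obtain ⟨x, ⟨hx1, hx2⟩, hx3⟩ := (hfr.and_eventually (Ioo_mem_nhdsGT hδ0)).exists
  have hx0 : (0 : ℝ) < x := hx3.1
  have hr0 := rt_ne D.hm0 w hx0
  have hpow : D.ψ (σ x) ^ D.m = rt D.m w x ^ D.m := by
    rw [rt_pow D.hm0]
    have := hσ.2 x hx0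
    rw [this, ray] at hx1
    rw [hx1]; ring
  have hζ : (D.ψ (σ x) / rt D.m w x) ^ D.m = 1 := by
    rw [div_pow, hpow, div_self (pow_ne_zero _ hr0)]
  refine ⟨D.ψ (σ x) / rt D.m w x, hζ, ?_⟩
  have hsub : Ioo (0 : ℝ) δ ⊆ Ioi 0 := fun x hx => hx.1
  have heq : σ x = D.φ (D.ψ (σ x) / rt D.m w x * rt D.m w x) := by
    rw [div_mul_cancel₀ _ hr0, hx2]
  filter_upwards [Ioo_mem_nhdsGT hδ0] with x' hx'
  exact h1 X (ray w) (Ioo 0 δ) σ _ hX ordConnected_Ioo (hσ.mono hsub) (hlift _ hζ) (hnc.mono hsub) x hx3 heq x' hx'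

/-- the local lifts for different roots of unity are different -/
theorem kap_inj {ζ ζ' : ℂ} (h : ∃ᶠ x : ℝ in 𝓝[>] (0 : ℝ), D.φ (ζ * rt D.m w x) = D.φ (ζ' * rt D.m w x)) :
    ζ = ζ' := by
  obtain ⟨x, ⟨⟨hx1, hx2⟩, hx3⟩, hx4⟩ := (((h.and_eventually ((D.tends (ζ := ζ)).eventually D.hr)).and_eventually
    ((D.tends (ζ := ζ')).eventually D.hr)).and_eventually self_mem_nhdsWithin).exists
  have h2 : D.ψ (D.φ (ζ * rt D.m w x)) = D.ψ (D.φ (ζ' * rt D.m w x)) := by rw [hx1]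
  have h3 : ζ * rt D.m w x = ζ' * rt D.m w x := hx2.symm.trans (h2.trans hx3)
  exact mul_right_cancel₀ (rt_ne D.hm0 w hx4) h3

end Rm

end Pool.Agent.Y922.AP
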