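import Pool.Agent.Y922.AP.TMain
import Pool.Agent.Y697.AP.UNIQ
import Pool.Agent.Y484.AP.Bdd
import Pool.Agent.Y401.AP.Lift
import Pool.Agent.Y302.AP.Gen
import Pool.Agent.Y730.AP.Alg
import Pool.Agent.Y388.AP.Bri
import Pool.Agent.Y388.AP.Pts
import Pool.Agent.Y100.AP.Ord
import Pool.Agent.Y907.AP.SQ
import Pool.Agent.Y340.AP.Strip
import Pool.Agent.Y688.AP.Log
import Pool.Agent.Y388.AP.Zero
import Pool.Agent.Y697.AP.T3
import Pool.Agent.Y438.AP.T1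
import Pool.Agent.Y780.AP.T2

/-!
# Project AP: assembly
-/

set_option autoImplicit false

open Filter Topology Set

namespace Pool.Agent.Y922.AP

theorem main : S_MAIN :=
  t_MAIN Y697.AP.t_UNIQ (Y401.AP.t_LIFT Y697.AP.t_UNIQ Y484.AP.t_BDD) Y302.AP.t_INF
    (t_CRIT Y697.AP.t_UNIQ Y484.AP.t_BDD (Y401.AP.t_LIFT Y697.AP.t_UNIQ Y484.AP.t_BDD) Y302.AP.t_INF)
    Y730.AP.t_ALG Y388.AP.t_BRI Y388.AP.t_TOW Y302.AP.t_GEN Y302.AP.t_COND

/-- the theorem for the function `X` with `X ((s - 1/2)^2) = ξ(s)` -/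
theorem mainX : ∃ X : ℂ → ℂ, Differentiable ℂ X ∧ (∀ s : ℂ, X ((s - 1 / 2) ^ 2) = xi s) ∧
    ∀ (K : Subfield ℂ), Countable K →
    {a : ℂ | ∃ (n : ℕ) (y : Fin n → ℂ), Function.Injective y ∧ (∀ i, X (y i) = a) ∧
      ¬ AlgebraicIndependent K (fun o : Option (Fin n) => o.elim a y)}.Countable := by
  obtain ⟨X, hX, hXs⟩ := Y907.AP.t_SQ
  have h1 := Y438.AP.t_T1 Y340.AP.t_STRIP Y688.AP.t_LOG X hX hXs
  obtain ⟨R, G, hG⟩ := Y780.AP.t_T2 Y340.AP.t_STRIP Y688.AP.t_LOG Y907.AP.t_SYM X hX hXs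
  have h3 := Y697.AP.t_T3 Y340.AP.t_STRIP Y388.AP.t_ZERO Y907.AP.t_SYM X hX hXs
  exact ⟨X, hX, hXs, fun K hK => main X R G hX h1 hG h3 K hK⟩

/-- the rational numbers as a subfield of the complex numbers -/
theorem ratK_countable : Countable ((algebraMap ℚ ℂ).fieldRange) :=
  Function.Surjective.countable (f := fun q : ℚ => (⟨algebraMap ℚ ℂ q, ⟨q, rfl⟩⟩ : (algebraMap ℚ ℂ).fieldRange)) (by
    rintro ⟨x, q, hq⟩
    exact ⟨q, Subtype.ext hq⟩)

/-- the final theorem -/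
theorem final (K : Subfield ℂ) (hK : Countable K) :
    ∃ E : Set ℂ, E.Countable ∧ (∀ a : ℂ, a ∉ E → Transcendental K a ∧
      ∀ (n : ℕ) (s : Fin n → ℂ), (∀ i, xi (s i) = a) → (∀ i j, i ≠ j → s i ≠ s j ∧ s i + s j ≠ 1) →
        AlgebraicIndependent (adj K a) s) ∧
      ∀ a : ℝ, (a : ℂ) ∉ E → AlgebraicIndependent (adj K a)
        (fun γ : {γ : ℝ // 0 < γ ∧ ∃ β : ℝ, xi ((β : ℂ) + (γ : ℂ) * Complex.I) = (a : ℂ)} => ((γ.1 : ℝ) : ℂ)) := by
  obtain ⟨X, hX, hXs, hmain⟩ := mainX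
  refine ⟨_, hmain K hK, ?_, ?_⟩
  · intro a ha
    have hgen : ∀ (n : ℕ) (y : Fin n → ℂ), Function.Injective y → (∀ i, X (y i) = a) →
        AlgebraicIndependent K (fun o : Option (Fin n) => o.elim a y) := by
      intro n y hy1 hy2
      by_contra hcon
      exact ha ⟨n, y, hy1, hy2, hcon⟩
    have htr : Transcendental K a :=
      ((Y388.AP.t_TOW K a (Fin 0) Fin.elim0).mp
        (hgen 0 Fin.elim0 (fun i => i.elim0) (fun i => i.elim0))).1
    refine ⟨htr, fun n s hs hd => ?_⟩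
    apply Y388.AP.t_PTS
    refine ((Y388.AP.t_TOW K a (Fin n) _).mp (hgen n (fun i => (s i - 1 / 2) ^ 2) ?_ ?_)).2
    · intro i j hij
      by_contra hne
      obtain ⟨h1, h2⟩ := hd i j hne
      have h3 : (s i - s j) * (s i + s j - 1) = 0 := by
        have h4 : (s i - 1 / 2) ^ 2 = (s j - 1 / 2) ^ 2 := hij
        linear_combination h4
      rcases mul_eq_zero.mp h3 with h5 | h5
      · exact h1 (sub_eq_zero.mp h5)
      · exact h2 (sub_eq_zero.mp h5)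
    · intro i
      rw [hXs, hs]
  · intro a ha
    apply Y100.AP.t_ORD Y907.AP.t_SYM
    intro n y hy1 hy2
    have h5 : AlgebraicIndependent K (fun o : Option (Fin n) => o.elim (a : ℂ) y) := by
      by_contra hcon
      refine ha ⟨n, y, hy1, fun i => ?_, hcon⟩
      obtain ⟨s, hs1, hs2⟩ := hy2 i
      rw [hs2, hXs, hs1]
    exact ((Y388.AP.t_TOW K a (Fin n) y).mp h5).2

/-- from numbers to functions -/
theorem fun_of {f : ℂ → ℂ} (hf : ∀ K : Subfield ℂ, Countable K → ∃ E : Set ℂ, E.Countable ∧ ∀ a : ℂ, a ∉ E →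
      ∀ (n : ℕ) (s : Fin n → ℂ), (∀ i, f (s i) = a) → (∀ i j, i ≠ j → s i ≠ s j ∧ s i + s j ≠ 1) →
        AlgebraicIndependent K (fun o : Option (Fin n) => o.elim a s))
    (n : ℕ) (P : MvPolynomial (Option (Fin n)) ℂ) (hP : P ≠ 0) (a₀ : ℂ) (g : Fin n → ℂ → ℂ)
    (hg : ∀ i, AnalyticAt ℂ (g i) a₀) (hXg : ∀ i, ∀ᶠ a in 𝓝 a₀, f (g i a) = a)
    (hinj : ∀ i j, i ≠ j → g i a₀ ≠ g j a₀ ∧ g i a₀ + g j a₀ ≠ 1) :
    ∀ᶠ a in 𝓝[≠] a₀, MvPolynomial.eval (fun o : Option (Fin n) => o.elim a fun i => g i a) P ≠ 0 := by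
  classical
  have hF : AnalyticAt ℂ (fun a => MvPolynomial.eval (fun o : Option (Fin n) => o.elim a fun i => g i a) P) a₀ := by
    have h1 := AnalyticAt.aeval_mvPolynomial (𝕜 := ℂ) (z := a₀)
      (f := fun a (o : Option (Fin n)) => o.elim a fun i => g i a) (by
        intro o
        rcases o with _ | i
        · exact analyticAt_id
        · exact hg i) P
    exact h1
  rcases hF.eventually_eq_zero_or_eventually_ne_zero with h0 | h0
  swap
  · exact h0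
  exfalso
  let K : Subfield ℂ := Subfield.closure (P.coeffs : Set ℂ)
  have hKc : Countable K := by
    rw [← Cardinal.mk_le_aleph0_iff]
    refine (Subfield.cardinalMk_closure_le_max _).trans (max_le ?_ le_rfl)
    rw [Cardinal.mk_le_aleph0_iff]
    exact P.coeffs.countable_toSet.to_subtype
  obtain ⟨PK, hPK⟩ : ∃ PK : MvPolynomial (Option (Fin n)) K, MvPolynomial.map (algebraMap K ℂ) PK = P := by
    have h1 : P ∈ Set.range (MvPolynomial.map (algebraMap K ℂ)) := by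
      rw [MvPolynomial.mem_range_map_iff_coeffs_subset]
      intro c hc
      exact ⟨⟨c, Subfield.subset_closure hc⟩, rfl⟩
    exact h1
  have hPK0 : PK ≠ 0 := by
    rintro rfl
    exact hP (by rw [← hPK, map_zero])
  have hpair : ∀ᶠ a in 𝓝 a₀, ∀ i j, i ≠ j → g i a ≠ g j a ∧ g i a + g j a ≠ 1 := by
    rw [eventually_all]
    intro i
    rw [eventually_all]
    intro j
    by_cases hij : i = j
    · exact Eventually.of_forall fun a h => absurd hij h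
    · obtain ⟨h1, h1'⟩ := hinj i j hij
      have h2 : ∀ᶠ a in 𝓝 a₀, g i a - g j a ≠ 0 :=
        ((hg i).continuousAt.sub (hg j).continuousAt).eventually_ne (sub_ne_zero.2 h1)
      have h3 : ∀ᶠ a in 𝓝 a₀, g i a + g j a ≠ 1 :=
        ((hg i).continuousAt.add (hg j).continuousAt).eventually_ne h1'
      filter_upwards [h2, h3] with a ha ha' _
      exact ⟨sub_ne_zero.1 ha, ha'⟩
  have hall : ∀ᶠ a in 𝓝 a₀, ∀ i, f (g i a) = a := by
    rw [eventually_all]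
    exact hXg
  obtain ⟨E, hE, hEa⟩ := hf K hKc
  obtain ⟨a, ha1, ha2, ha3, ha4⟩ := (hE.dense_compl ℂ).inter_nhds_nonempty (h0.and (hall.and hpair))
  apply hPK0
  refine (algebraicIndependent_iff.1 (hEa a ha1 n (fun i => g i a) ha3 ha4)) PK ?_
  rw [MvPolynomial.aeval_def, ← MvPolynomial.eval_map, hPK]
  exact ha2

/-- the branches of the inverse function of `ξ` -/
theorem final_fun (n : ℕ) (P : MvPolynomial (Option (Fin n)) ℂ) (hP : P ≠ 0) (a₀ : ℂ) (g : Fin n → ℂ → ℂ)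
    (hg : ∀ i, AnalyticAt ℂ (g i) a₀) (hXg : ∀ i, ∀ᶠ a in 𝓝 a₀, xi (g i a) = a)
    (hinj : ∀ i j, i ≠ j → g i a₀ ≠ g j a₀ ∧ g i a₀ + g j a₀ ≠ 1) :
    ∀ᶠ a in 𝓝[≠] a₀, MvPolynomial.eval (fun o : Option (Fin n) => o.elim a fun i => g i a) P ≠ 0 := by
  refine fun_of (f := xi) (fun K hK => ?_) n P hP a₀ g hg hXg hinj
  obtain ⟨E, hE, h1, -⟩ := final K hK
  exact ⟨E, hE, fun a ha n s hs hd => (Y388.AP.t_TOW K a (Fin n) s).mpr ⟨(h1 a ha).1, (h1 a ha).2 n s hs hd⟩⟩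

/-- the real form over the rational numbers -/
theorem final_real : ∃ E : Set ℂ, E.Countable ∧ ∀ a : ℝ, (a : ℂ) ∉ E → AlgebraicIndependent ℚ
    (fun γ : {γ : ℝ // 0 < γ ∧ ∃ β : ℝ, xi ((β : ℂ) + (γ : ℂ) * Complex.I) = (a : ℂ)} => (γ.1 : ℝ)) := by
  obtain ⟨E, hE, -, h2⟩ := final _ ratK_countable
  exact ⟨E, hE, fun a ha => Y388.AP.t_REAL _ _ _ (h2 a ha)⟩

end Pool.Agent.Y922.AP
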