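import Pool.Agent.Y922.AP.TCrit

/-!
# Project AP: the general theorem `S_MAIN`
-/

set_option autoImplicit false

open Filter Topology Set

namespace Pool.Agent.Y922.AP

theorem zeros_ball {X : ℂ → ℂ} (hX : Differentiable ℂ X) (hne : ∃ y, deriv X y ≠ 0) (ρ : ℝ) :
    {y : ℂ | y ∈ Metric.closedBall 0 ρ ∧ deriv X y = 0}.Finite := by
  by_contra hinf
  have hsub : {y : ℂ | y ∈ Metric.closedBall 0 ρ ∧ deriv X y = 0} ⊆ Metric.closedBall 0 ρ := fun y hy => hy.1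
  obtain ⟨y, -, hy⟩ := Set.Infinite.exists_accPt_of_subset_isCompact hinf (isCompact_closedBall 0 ρ) hsub
  have hfr : ∃ᶠ z in 𝓝[≠] y, deriv X z = 0 := by
    have h5 : ∃ᶠ z in 𝓝[≠] y, z ∈ {y : ℂ | y ∈ Metric.closedBall 0 ρ ∧ deriv X y = 0} := accPt_iff_frequently_nhdsNE.mp hy
    exact h5.mono fun z hz => hz.2
  have ha : AnalyticOnNhd ℂ (deriv X) univ := fun z _ => (hX.analyticAt z).deriv
  obtain ⟨z, hz⟩ := hne
  exact hz (ha.eqOn_zero_of_preconnected_of_frequently_eq_zero isPreconnected_univ (mem_univ y) hfr (mem_univ z))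

theorem crit_countable {X : ℂ → ℂ} (hX : Differentiable ℂ X) (hne : ∃ y, deriv X y ≠ 0) :
    {y : ℂ | deriv X y = 0}.Countable := by
  have h1 : {y : ℂ | deriv X y = 0} ⊆ ⋃ n : ℕ, {y : ℂ | y ∈ Metric.closedBall 0 (n : ℝ) ∧ deriv X y = 0} := by
    intro y hy
    obtain ⟨n, hn⟩ := exists_nat_ge ‖y‖
    exact mem_iUnion.mpr ⟨n, by simpa using hn, hy⟩
  exact (countable_iUnion fun n : ℕ => (zeros_ball hX hne (n : ℝ)).countable).mono h1

/-- a critical value of largest modulus -/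
theorem max_crit {X : ℂ → ℂ} (hX : Differentiable ℂ X) (hL : LogEnd X) (hne : ∃ y, deriv X y ≠ 0)
    (h : ∃ y, deriv X y = 0 ∧ X y ≠ 0) :
    ∃ (w yc : ℂ), X yc = Complex.exp w ∧ deriv X yc = 0 ∧ ∀ y : ℂ, deriv X y = 0 → ‖X y‖ ≤ Real.exp w.re := by
  obtain ⟨y₀, hd, hv⟩ := h
  obtain ⟨ρ, ell, -, -, -, h4⟩ := hL ‖X y₀‖ (norm_pos_iff.mpr hv)
  have hfin : {y : ℂ | ‖X y₀‖ ≤ ‖X y‖ ∧ deriv X y = 0}.Finite := by
    refine (zeros_ball hX hne ρ).subset ?_
    rintro y ⟨hy1, hy2⟩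
    refine ⟨?_, hy2⟩
    rw [Metric.mem_closedBall, dist_zero_right]
    by_contra hy3
    exact h4 y (not_le.mp hy3).le hy1 hy2
  obtain ⟨yc, hyc, hmax⟩ := Set.exists_max_image _ (fun y => ‖X y‖) hfin ⟨y₀, le_refl _, hd⟩
  have hc0 : X yc ≠ 0 := by
    intro h0
    have := hyc.1
    rw [h0, norm_zero] at this
    exact absurd (norm_pos_iff.mpr hv) (not_lt.mpr this)
  have hn : Real.exp (Complex.log (X yc)).re = ‖X yc‖ := by
    rw [Complex.log_re, Real.exp_log (norm_pos_iff.mpr hc0)]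
  refine ⟨Complex.log (X yc), yc, (Complex.exp_log hc0).symm, hyc.2, fun y hy => ?_⟩
  rw [hn]
  by_cases h5 : ‖X y₀‖ ≤ ‖X y‖
  · exact hmax y ⟨h5, hy⟩
  · exact (not_le.mp h5).le.trans hyc.1

/-- a ray without critical points through a given ball -/
theorem good_ray {X : ℂ → ℂ} (hX : Differentiable ℂ X) (hne : ∃ y, deriv X y ≠ 0) (a₀ : ℂ) {δ : ℝ} (hδ : 0 < δ) :
    ∃ w : ℂ, Complex.exp w ∈ Metric.ball a₀ δ ∧ NC X (ray w) univ := by
  -- a nonzero point of the ball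
  obtain ⟨a', ha', ha0⟩ : ∃ a' ∈ Metric.ball a₀ δ, a' ≠ 0 := by
    by_cases h : a₀ = 0
    · refine ⟨((δ / 2 : ℝ) : ℂ), ?_, ?_⟩
      · rw [h, Metric.mem_ball, dist_zero_right, Complex.norm_real, Real.norm_eq_abs, abs_of_pos (by linarith)]
        linarith
      · exact_mod_cast (by linarith : (δ / 2 : ℝ) ≠ 0)
    · exact ⟨a₀, Metric.mem_ball_self hδ, h⟩
  set w' := Complex.log a' with hw'
  have hexp : Complex.exp w' = a' := Complex.exp_log ha0
  have hcont : ContinuousAt (fun θ : ℝ => Complex.exp (w' + (θ : ℂ) * Complex.I)) 0 := by fun_prop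
  have hmem : ∀ᶠ θ : ℝ in 𝓝 0, Complex.exp (w' + (θ : ℂ) * Complex.I) ∈ Metric.ball a₀ δ := by
    apply hcont.eventually
    apply Metric.isOpen_ball.mem_nhds
    simpa [hexp] using ha'
  obtain ⟨ε, hε, hε2⟩ := Metric.eventually_nhds_iff_ball.mp hmem
  -- the bad angles
  have hbad : (⋃ y ∈ {y : ℂ | deriv X y = 0}, ⋃ n : ℤ, {θ : ℝ | w'.im + θ = (X y).arg + 2 * Real.pi * n}).Countable := by
    refine (crit_countable hX hne).biUnion fun y _ => countable_iUnion fun n => ?_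
    refine Set.Subsingleton.countable ?_
    intro θ hθ θ' hθ'
    have h1 : w'.im + θ = (X y).arg + 2 * Real.pi * n := hθ
    have h2 : w'.im + θ' = (X y).arg + 2 * Real.pi * n := hθ'
    linarith
  have hunc : ¬ (Metric.ball (0 : ℝ) ε).Countable := by
    rw [Real.ball_eq_Ioo]
    intro hc
    have := hc.measure_zero MeasureTheory.volume
    rw [Real.volume_Ioo] at this
    simp at this
    linarith
  obtain ⟨θ, hθ1, hθ2⟩ : ∃ θ ∈ Metric.ball (0 : ℝ) ε,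
      θ ∉ ⋃ y ∈ {y : ℂ | deriv X y = 0}, ⋃ n : ℤ, {θ : ℝ | w'.im + θ = (X y).arg + 2 * Real.pi * n} := by
    by_contra hcon
    push Not at hcon
    exact hunc (hbad.mono hcon)
  refine ⟨w' + (θ : ℂ) * Complex.I, hε2 θ hθ1, ?_⟩
  intro x _ y hy hd
  apply hθ2
  simp only [mem_iUnion]
  have hXy : X y ≠ 0 := by rw [hy]; exact Complex.exp_ne_zero _
  have h5 : Complex.exp (ray (w' + (θ : ℂ) * Complex.I) x) = Complex.exp (Complex.log (X y)) := by
    rw [Complex.exp_log hXy, hy]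
  obtain ⟨n, hn⟩ := Complex.exp_eq_exp_iff_exists_int.mp h5
  refine ⟨y, hd, n, ?_⟩
  have h6 := congrArg Complex.im hn
  simp [ray, Complex.log_im] at h6
  show w'.im + θ = (X y).arg + 2 * Real.pi * n
  linarith

end Pool.Agent.Y922.AP
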