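import Pool.Agent.Y922.AP.Stm

/-!
# Project AP: local inverses and the local normal form at a critical point
-/

set_option autoImplicit false

open Filter Topology Set

namespace Pool.Agent.Y922.AP

theorem loc_inv {f : ℂ → ℂ} {y : ℂ} (hf : AnalyticAt ℂ f y) (h : deriv f y ≠ 0) :
    ∃ g : ℂ → ℂ, AnalyticAt ℂ g (f y) ∧ g (f y) = y ∧ (∀ᶠ z in 𝓝 y, g (f z) = z) ∧
      (∀ᶠ t in 𝓝 (f y), f (g t) = t) := by
  refine ⟨hf.hasStrictDerivAt.localInverse _ _ _ h, hf.analyticAt_localInverse h,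
    HasStrictFDerivAt.localInverse_apply_image .., ?_, ?_⟩
  · exact HasStrictDerivAt.eventually_left_inverse ..
  · exact HasStrictDerivAt.eventually_right_inverse ..

/-- the normal form `X (φ u) = X yc + u ^ m` at a critical point -/
theorem ram {X : ℂ → ℂ} {yc : ℂ} (hX : AnalyticAt ℂ X yc) (hnc : ¬ ∀ᶠ z in 𝓝 yc, X z = X yc) (hd : deriv X yc = 0) :
    ∃ (m : ℕ) (ψ φ : ℂ → ℂ), 2 ≤ m ∧ AnalyticAt ℂ ψ yc ∧ AnalyticAt ℂ φ 0 ∧ φ 0 = yc ∧ ψ yc = 0 ∧
      (∀ᶠ y in 𝓝 yc, X y = X yc + ψ y ^ m) ∧ (∀ᶠ y in 𝓝 yc, φ (ψ y) = y) ∧ (∀ᶠ u in 𝓝 (0 : ℂ), ψ (φ u) = u) := by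
  have hf : AnalyticAt ℂ (fun z => X z - X yc) yc := hX.sub analyticAt_const
  obtain ⟨m, g, hg, hg0, hm⟩ := hf.exists_eventuallyEq_pow_smul_nonzero_iff.mpr (by
    intro h; exact hnc (h.mono fun z hz => sub_eq_zero.mp hz))
  have hm0 : m ≠ 0 := by
    rintro rfl
    have := hm.self_of_nhds
    simp at this
    exact hg0 this.symm
  have hm1 : m ≠ 1 := by
    rintro rfl
    have h1 : HasDerivAt (fun z => (z - yc) ^ 1 • g z) (g yc) yc := by
      have h2 : HasDerivAt (fun z : ℂ => z - yc) 1 yc := (hasDerivAt_id yc).sub_const yc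
      have h3 := h2.mul hg.differentiableAt.hasDerivAt
      have h4 : (fun z : ℂ => (z - yc) ^ 1 • g z) = (fun z : ℂ => z - yc) * g := by
        ext z; simp
      rw [h4]
      simpa using h3
    have h5 : HasDerivAt (fun z => X z - X yc) (g yc) yc := h1.congr_of_eventuallyEq hm
    have h6 : HasDerivAt (fun z => X z - X yc) 0 yc := by
      have := hX.differentiableAt.hasDerivAt.sub_const (X yc)
      rwa [hd] at this
    exact hg0 (h5.unique h6)
  have hmC : (m : ℂ) ≠ 0 := by exact_mod_cast hm0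
  set γ : ℂ → ℂ := fun y => g y / g yc with hγ
  have hγa : AnalyticAt ℂ γ yc := hg.div_const
  have hγ1 : γ yc = 1 := by simp [hγ, div_self hg0]
  set c : ℂ := g yc ^ ((m : ℂ)⁻¹) with hc
  have hcm : c ^ m = g yc := by
    rw [hc]; exact Complex.cpow_nat_inv_pow _ hm0
  have hc0 : c ≠ 0 := by
    intro h; rw [h, zero_pow hm0] at hcm; exact hg0 hcm.symm
  set ψ : ℂ → ℂ := fun y => (y - yc) * (c * (γ y) ^ ((m : ℂ)⁻¹)) with hψ
  have hsl : γ yc ∈ Complex.slitPlane := by rw [hγ1]; exact Complex.one_mem_slitPlane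
  have hra : AnalyticAt ℂ (fun y => (γ y) ^ ((m : ℂ)⁻¹)) yc := hγa.cpow analyticAt_const hsl
  have hψa : AnalyticAt ℂ ψ yc := (analyticAt_id.sub analyticAt_const).mul (analyticAt_const.mul hra)
  have hψ0 : ψ yc = 0 := by simp [hψ]
  have hψd : deriv ψ yc = c := by
    have h2 : HasDerivAt (fun z : ℂ => z - yc) 1 yc := (hasDerivAt_id yc).sub_const yc
    have hqa : AnalyticAt ℂ (fun y => c * (γ y) ^ ((m : ℂ)⁻¹)) yc := analyticAt_const.mul hra
    have h3 : HasDerivAt (fun z => (z - yc) * (c * (γ z) ^ ((m : ℂ)⁻¹)))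
      (1 * (c * (γ yc) ^ ((m : ℂ)⁻¹)) + (yc - yc) * deriv (fun y => c * (γ y) ^ ((m : ℂ)⁻¹)) yc) yc :=
      h2.mul hqa.differentiableAt.hasDerivAt
    rw [hψ, h3.deriv]
    simp [hγ1]
  obtain ⟨φ, hφa, hφ0, hφl, hφr⟩ := loc_inv hψa (by rw [hψd]; exact hc0)
  rw [hψ0] at hφa hφ0 hφr
  refine ⟨m, ψ, φ, by omega, hψa, hφa, hφ0, hψ0, ?_, hφl, hφr⟩
  filter_upwards [hm] with y hy
  have h7 : ψ y ^ m = (y - yc) ^ m * g y := by
    rw [hψ]
    simp only [mul_pow]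
    rw [hcm, Complex.cpow_nat_inv_pow _ hm0, hγ]
    field_simp
  rw [h7]
  have : X y - X yc = (y - yc) ^ m * g y := hy
  rw [← this]; ring

end Pool.Agent.Y922.AP
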