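import Pool.Agent.Y922.AP.Stm

/-!
# Project AQ: the same for products of Dirichlet L-functions

Statements of the building blocks.
-/

set_option autoImplicit false

open Filter Topology Set

namespace Pool.Agent.Y922.AQ

open Pool.Agent.Y922.AP

/-- entire functions with decay in vertical strips and a good logarithm in a right half-plane -/
structure Good (f : ℂ → ℂ) : Prop where
  diff : Differentiable ℂ f
  strip : ∀ c b : ℝ, 0 < c → ∃ T : ℝ, ∀ s : ℂ, |s.re| ≤ b → T ≤ |s.im| → ‖f s‖ < c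
  log : ∃ (σ₀ : ℝ) (L : ℂ → ℂ), 1 ≤ σ₀ ∧ ∀ s : ℂ, σ₀ < s.re →
    AnalyticAt ℂ L s ∧ Complex.exp (L s) = f s ∧ 1 ≤ (deriv L s).re

/-- products -/
def S_MUL : Prop := ∀ f g : ℂ → ℂ, Good f → Good g → Good (fun s => f s * g s)

/-- the completed L-function of a primitive Dirichlet character, with the factor of the conductor -/
def S_CHISTRIP : Prop :=
  ∀ (d : ℕ) [NeZero d] (ψ : DirichletCharacter ℂ d), d ≠ 1 → ψ.IsPrimitive →
    ∀ c b : ℝ, 0 < c → ∃ T : ℝ, ∀ s : ℂ, |s.re| ≤ b → T ≤ |s.im| →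
      ‖(d : ℂ) ^ (s / 2) * DirichletCharacter.completedLFunction ψ s‖ < c

/-- its logarithm -/
def S_CHILOG : Prop :=
  ∀ (d : ℕ) [NeZero d] (ψ : DirichletCharacter ℂ d), d ≠ 1 → ψ.IsPrimitive →
    ∃ (σ₀ : ℝ) (L : ℂ → ℂ), 1 ≤ σ₀ ∧ ∀ s : ℂ, σ₀ < s.re →
      AnalyticAt ℂ L s ∧ Complex.exp (L s) = (d : ℂ) ^ (s / 2) * DirichletCharacter.completedLFunction ψ s ∧
        1 ≤ (deriv L s).re

/-- the function `f^{s/2} Λ(s, χ*)` for the primitive character `χ*` inducing `χ`, `f` its conductor -/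
noncomputable def Lam {q : ℕ} [NeZero q] (χ : DirichletCharacter ℂ q) (s : ℂ) : ℂ :=
  haveI : NeZero χ.conductor := ⟨χ.conductor_ne_zero⟩
  (χ.conductor : ℂ) ^ (s / 2) * DirichletCharacter.completedLFunction χ.primitiveCharacter s

/-- conjugation -/
def S_CONJ : Prop :=
  ∀ (q : ℕ) [NeZero q] (χ : DirichletCharacter ℂ q), χ ≠ 1 → ∀ s : ℂ,
    Lam χ⁻¹ s = starRingEnd ℂ (Lam χ (starRingEnd ℂ s))

/-- functional equation -/
def S_LFE : Prop :=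
  ∀ (q : ℕ) [NeZero q] (χ : DirichletCharacter ℂ q), χ ≠ 1 → ∃ W : ℂ, ∀ s : ℂ, Lam χ (1 - s) = W * Lam χ⁻¹ s

/-- an even function is a function of the square -/
def S_SQ : Prop :=
  ∀ h : ℂ → ℂ, Differentiable ℂ h → (∀ s, h (1 - s) = h s) →
    ∃ X : ℂ → ℂ, Differentiable ℂ X ∧ ∀ s : ℂ, X ((s - 1 / 2) ^ 2) = h s

/-- the behaviour near infinity -/
def S_T1 : Prop :=
  ∀ h : ℂ → ℂ, Good h → ∀ X : ℂ → ℂ, Differentiable ℂ X → (∀ s : ℂ, X ((s - 1 / 2) ^ 2) = h s) → LogEnd X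

/-- the inverse function near infinity -/
def S_T2 : Prop :=
  ∀ h : ℂ → ℂ, Good h → ∀ X : ℂ → ℂ, Differentiable ℂ X → (∀ s : ℂ, X ((s - 1 / 2) ^ 2) = h s) →
    ∃ (R : ℝ) (G : ℂ → ℂ), End X R G

/-- a critical point with nonzero value -/
def S_T3 : Prop :=
  ∀ h : ℂ → ℂ, Good h → (∀ s : ℂ, h (starRingEnd ℂ s) = starRingEnd ℂ (h s)) →
    (∃ t : ℝ, 0 < t ∧ h (1 / 2 + t * Complex.I) = 0) →
    ∀ X : ℂ → ℂ, Differentiable ℂ X → (∀ s : ℂ, X ((s - 1 / 2) ^ 2) = h s) → ∃ y, deriv X y = 0 ∧ X y ≠ 0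

/-- from the points to their imaginary parts -/
def S_ORD : Prop :=
  ∀ f : ℂ → ℂ, (∀ s : ℂ, f (starRingEnd ℂ s) = starRingEnd ℂ (f s)) → ∀ (K : Subfield ℂ) (a : ℝ),
    (∀ (n : ℕ) (y : Fin n → ℂ), Function.Injective y → (∀ i, ∃ s : ℂ, f s = a ∧ y i = (s - 1 / 2) ^ 2) →
      AlgebraicIndependent K y) →
    AlgebraicIndependent K
      (fun γ : {γ : ℝ // 0 < γ ∧ ∃ β : ℝ, f ((β : ℂ) + (γ : ℂ) * Complex.I) = (a : ℂ)} => ((γ.1 : ℝ) : ℂ))

/-- from the square of `a` to `a` -/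
def S_SQA : Prop :=
  ∀ (K : Subfield ℂ) (n : ℕ) (a : ℂ) (y : Fin n → ℂ),
    AlgebraicIndependent K (fun o : Option (Fin n) => o.elim (a ^ 2) y) →
    AlgebraicIndependent K (fun o : Option (Fin n) => o.elim a y)

end Pool.Agent.Y922.AQ
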