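import Pool.Agent.Y922.AP.Tra

/-!
# Project AP: `S_CRIT`
-/

set_option autoImplicit false

open Filter Topology Set

namespace Pool.Agent.Y922.AP

theorem end_ne {X : ℂ → ℂ} {R : ℝ} {G : ℂ → ℂ} (hX : Differentiable ℂ X) (hG : End X R G) : ∃ y, deriv X y ≠ 0 := by
  by_contra hcon
  push Not at hcon
  have h1 : ((R + 1 : ℝ) : ℂ).re = R + 1 := Complex.ofReal_re _
  have h2 : ((R + 2 : ℝ) : ℂ).re = R + 2 := Complex.ofReal_re _
  have h3 := hG.eq ((R + 1 : ℝ) : ℂ) (by rw [h1]; linarith)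
  have h4 := hG.eq ((R + 2 : ℝ) : ℂ) (by rw [h2]; linarith)
  have h5 := is_const_of_deriv_eq_zero hX hcon (G ((R + 1 : ℝ) : ℂ)) (G ((R + 2 : ℝ) : ℂ))
  rw [h3, h4, ← Complex.ofReal_exp, ← Complex.ofReal_exp] at h5
  have h6 := Real.exp_injective (Complex.ofReal_injective h5)
  linarith

theorem t_CRIT (h1 : S_UNIQ) (h2 : S_BDD) (h3 : S_LIFT) (h4 : S_INF) : S_CRIT := by
  intro X R G hX hL hG w yc hyc hd hmax
  have hnc := nc_ray hmax
  have hne := end_ne hX hG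
  choose σ hσ hσG using branch h1 h3 hX hL hG hnc
  obtain ⟨D⟩ := rm_of hX hne hyc hd
  set b : ℝ := max 0 (R - w.re) with hb
  have hb1 : 0 ≤ b := le_max_left _ _
  have hb2 : R - w.re ≤ b := le_max_right _ _
  -- equal lifts
  have hinj : ∀ k k' : ℤ, (∃ᶠ x in 𝓝[>] (0 : ℝ), σ k x = σ k' x) → k = k' := by
    intro k k' h
    have h5 := lift_eq h1 hX hnc (hσ k) (hσ k') h (b + 1) (by linarith)
    rw [hσG k (b + 1) (by linarith) (by linarith), hσG k' (b + 1) (by linarith) (by linarith)] at h5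
    have h6 := hG.inj _ _ (by simp; linarith) (by simp; linarith) h5
    have h7 : (2 * Real.pi * Complex.I : ℂ) * k = 2 * Real.pi * Complex.I * k' := add_left_cancel h6
    have h8 : (2 * Real.pi * Complex.I : ℂ) ≠ 0 := Complex.two_pi_I_ne_zero
    exact_mod_cast mul_left_cancel₀ h8 h7
  -- the index of a local lift
  have hidx : ∀ ζ : ℂ, ζ ^ D.m = 1 → ∃ k : ℤ, ∀ᶠ x : ℝ in 𝓝[>] (0 : ℝ), σ k x = D.φ (ζ * rt D.m w x) := by
    intro ζ hζ
    obtain ⟨δ, hδ, hδ2⟩ := (mem_nhdsGT_iff_exists_Ioo_subset).mp (D.kap hζ)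
    have hδ0 : (0 : ℝ) < δ := hδ
    have hmid : δ / 2 ∈ Ioo (0 : ℝ) δ := ⟨by linarith, by linarith⟩
    obtain ⟨τ, hτ, hτ0⟩ := h3 X (ray w) (Ioi 0) hX hL (ray_an w) ordConnected_Ioi hnc (δ / 2) hmid.1
      (D.φ (ζ * rt D.m w ((δ / 2 : ℝ) : ℂ))) (hδ2 hmid).2
    have hsub : Ioo (0 : ℝ) δ ⊆ Ioi 0 := fun x hx => hx.1
    obtain ⟨k, hk⟩ := h4 X R G hX hG w 0 τ hτ
    have heq : ∀ x, 0 < x → τ x = σ k x := by
      intro x hx
      exact h1 X (ray w) (Ioi 0) τ (σ k) hX ordConnected_Ioi hτ (hσ k) hnc (b + 1) (show (0 : ℝ) < b + 1 by linarith)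
        (by rw [hk (b + 1) (by linarith) (by linarith), hσG k (b + 1) (by linarith) (by linarith)]) x hx
    refine ⟨k, ?_⟩
    filter_upwards [Ioo_mem_nhdsGT hδ0] with x hx
    rw [← heq x hx.1]
    exact h1 X (ray w) (Ioo 0 δ) τ _ hX ordConnected_Ioo (hτ.mono hsub)
      ⟨fun x hx => (hδ2 hx).1, fun x hx => (hδ2 hx).2⟩ (hnc.mono hsub) (δ / 2) hmid hτ0 x hx
  -- two different ones
  have hprim := Complex.isPrimitiveRoot_exp D.m D.hm0
  set ζ₁ : ℂ := Complex.exp (2 * Real.pi * Complex.I / D.m) with hζ₁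
  have hζ1 : ζ₁ ^ D.m = 1 := hprim.pow_eq_one
  have hζne : ζ₁ ≠ 1 := hprim.ne_one (by have := D.hm; omega)
  obtain ⟨k, hk⟩ := hidx 1 (one_pow _)
  obtain ⟨k', hk'⟩ := hidx ζ₁ hζ1
  have hkk : k ≠ k' := by
    rintro rfl
    apply hζne
    symm
    apply D.kap_inj
    apply Filter.Eventually.frequently
    filter_upwards [hk, hk'] with x hx hx'
    rw [← hx, ← hx']
  -- the bad indices
  have hBfin : {j : ℤ | ∃ y : ℂ, (X y = Complex.exp w ∧ deriv X y = 0) ∧ MapClusterPt y (𝓝[>] (0 : ℝ)) (σ j)}.Finite := by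
    have h5 : {j : ℤ | ∃ y : ℂ, (X y = Complex.exp w ∧ deriv X y = 0) ∧ MapClusterPt y (𝓝[>] (0 : ℝ)) (σ j)} =
        ⋃ y ∈ {y : ℂ | X y = Complex.exp w ∧ deriv X y = 0}, {j : ℤ | MapClusterPt y (𝓝[>] (0 : ℝ)) (σ j)} := by
      ext j; simp
    rw [h5]
    refine (crit_fin hX hL w hne).biUnion fun y hy => ?_
    obtain ⟨E⟩ := rm_of hX hne hy.1 hy.2
    have hfinroots : {ζ : ℂ | ζ ^ E.m = 1}.Finite := by
      refine (Polynomial.nthRootsFinset E.m (1 : ℂ)).finite_toSet.subset fun ζ hζ => ?_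
      rw [Finset.mem_coe, Polynomial.mem_nthRootsFinset (Nat.pos_of_ne_zero E.hm0)]
      exact hζ
    have hch : ∀ j : ℤ, ∃ ζ : ℂ, MapClusterPt y (𝓝[>] (0 : ℝ)) (σ j) →
        (ζ ^ E.m = 1 ∧ ∀ᶠ x in 𝓝[>] (0 : ℝ), σ j x = E.φ (ζ * rt E.m w x)) := by
      intro j
      by_cases hj : MapClusterPt y (𝓝[>] (0 : ℝ)) (σ j)
      · obtain ⟨ζ, hζ⟩ := E.of_cluster h1 hX hnc (hσ j) hj
        exact ⟨ζ, fun _ => hζ⟩
      · exact ⟨0, fun h => absurd h hj⟩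
    choose Z hZ using hch
    refine Set.Finite.of_finite_image (f := Z) (hfinroots.subset ?_) ?_
    · rintro _ ⟨j, hj, rfl⟩
      exact (hZ j hj).1
    · intro j hj j' hj' hjj
      apply hinj
      apply Filter.Eventually.frequently
      filter_upwards [(hZ j hj).2, (hZ j' hj').2] with x hx hx'
      rw [hx, hx', hjj]
  have hBd : ∀ j : ℤ, j ∉ hBfin.toFinset → ∃ h : ℂ → ℂ, AnalyticAt ℂ h (Complex.exp w) ∧
      ∀ᶠ x : ℝ in 𝓝[>] (0 : ℝ), σ j x = h (Complex.exp ((x : ℂ) + w)) := by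
    intro j hj
    rw [Set.Finite.mem_toFinset] at hj
    obtain ⟨y, hy, hyw⟩ := cluster h2 hX hL (hσ j)
    exact good_end h1 hX hnc (hσ j) hy hyw fun h => hj ⟨y, ⟨hyw, h⟩, hy⟩
  rcases lt_or_gt_of_ne hkk with hlt | hlt
  · exact ⟨k, k', hBfin.toFinset, hlt, fun Q hQ hrel =>
      transfer hG D σ hσ hσG (one_pow _) hζ1 hk hk' _ hBd Q hQ hrel⟩
  · exact ⟨k', k, hBfin.toFinset, hlt, fun Q hQ hrel =>
      transfer hG D σ hσ hσG hζ1 (one_pow _) hk' hk _ hBd Q hQ hrel⟩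

end Pool.Agent.Y922.AP
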