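import Pool.Agent.Y922.AP.Main

/-!
# Project AP: the general theorem `S_MAIN`, end of the proof
-/

set_option autoImplicit false

open Filter Topology Set

namespace Pool.Agent.Y922.AP

theorem aeval_eq {K : Subfield ℂ} {ι : Type} (f : ι → ℂ) (P : MvPolynomial ι K) :
    MvPolynomial.aeval f P = MvPolynomial.eval f (MvPolynomial.map (algebraMap K ℂ) P) := by
  rw [MvPolynomial.eval_map, MvPolynomial.aeval_def]

theorem fam_elim (G : ℂ → ℂ) (W : ℂ) :
    fam G W = fun o : Option ℤ => o.elim (Complex.exp W) fun k => G (W + 2 * Real.pi * Complex.I * k) := by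
  funext o
  cases o <;> rfl

theorem vars_map_le {K : Subfield ℂ} {ι : Type} (P : MvPolynomial ι K) :
    (MvPolynomial.map (algebraMap K ℂ) P).vars ⊆ P.vars := MvPolynomial.vars_map _ _

/-- from a germ relation to a relation between the branches -/
theorem germ_branches {X : ℂ → ℂ} {R : ℝ} {G : ℂ → ℂ} (h1 : S_UNIQ) (h3 : S_LIFT) (h4 : S_INF)
    (hX : Differentiable ℂ X) (hL : LogEnd X) (hG : End X R G) {n : ℕ} (Q : MvPolynomial (Option (Fin n)) ℂ)
    {a₀ : ℂ} {δ : ℝ} {g : Fin n → ℂ → ℂ} (hδ : 0 < δ)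
    (hg : ∀ i, ∀ a ∈ Metric.ball a₀ δ, AnalyticAt ℂ (g i) a ∧ X (g i a) = a)
    (hinj : ∀ a ∈ Metric.ball a₀ δ, Function.Injective fun i => g i a)
    (hrel : ∀ a ∈ Metric.ball a₀ δ, MvPolynomial.eval (fun o : Option (Fin n) => o.elim a fun i => g i a) Q = 0) :
    ∃ k : Fin n → ℤ, Function.Injective k ∧
      ∀ W : ℂ, R < W.re → MvPolynomial.eval (fun o : Option (Fin n) => fam G W (o.map k)) Q = 0 := by
  have hne := end_ne hX hG
  obtain ⟨w, hw, hnc⟩ := good_ray hX hne a₀ hδ
  -- lifts
  have hlift : ∀ i, ∃ τ : ℝ → ℂ, Lift X (ray w) univ τ ∧ τ 0 = g i (Complex.exp w) := by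
    intro i
    refine h3 X (ray w) univ hX hL (ray_an w) ordConnected_univ hnc 0 (mem_univ _) _ ?_
    rw [(hg i _ hw).2, ray]; simp
  choose τ hτ hτ0 using hlift
  -- near zero
  have hev : ∀ᶠ x : ℝ in 𝓝 0, Complex.exp ((x : ℂ) + w) ∈ Metric.ball a₀ δ := by
    have hcont : ContinuousAt (fun x : ℝ => Complex.exp ((x : ℂ) + w)) 0 := by fun_prop
    apply hcont.eventually
    apply Metric.isOpen_ball.mem_nhds
    simpa using hw
  obtain ⟨ε, hε, hε2⟩ := Metric.eventually_nhds_iff_ball.mp hev
  have hnear : ∀ i, ∀ x ∈ Metric.ball (0 : ℝ) ε, τ i x = g i (Complex.exp ((x : ℂ) + w)) := by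
    intro i x hx
    have hgl : Lift X (ray w) (Metric.ball (0 : ℝ) ε) (fun x : ℝ => g i (Complex.exp ((x : ℂ) + w))) := by
      refine ⟨fun x hx => ?_, fun x hx => (hg i _ (hε2 x hx)).2⟩
      have h5 : AnalyticAt ℂ (fun z => g i (Complex.exp z)) ((x : ℂ) + w) :=
        AnalyticAt.comp (f := Complex.exp) (hg i _ (hε2 x hx)).1 (Complex.differentiable_exp.analyticAt _)
      exact comp_ray h5
    have hoc : (Metric.ball (0 : ℝ) ε).OrdConnected := by rw [Real.ball_eq_Ioo]; exact ordConnected_Ioo
    exact h1 X (ray w) (Metric.ball (0 : ℝ) ε) (τ i) _ hX hoc ((hτ i).mono (subset_univ _)) hgl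
      (hnc.mono (subset_univ _)) 0 (Metric.mem_ball_self hε) (by rw [hτ0]; simp) x hx
  -- the relation along the ray
  let s : Option (Fin n) → ℝ → ℂ := fun o x => match o with
    | none => Complex.exp ((x : ℂ) + w)
    | some i => τ i x
  have hs : ∀ o x, AnalyticAt ℝ (s o) x := by
    intro o x
    cases o with
    | none => exact comp_ray (Complex.differentiable_exp.analyticAt _)
    | some i => exact (hτ i).1 x (mem_univ _)
  have han : AnalyticOnNhd ℝ (fun x : ℝ => MvPolynomial.eval (fun o => s o x) Q) univ :=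
    fun x _ => eval_an Q s x fun o _ => hs o x
  have hF : ∀ x : ℝ, MvPolynomial.eval (fun o => s o x) Q = 0 := by
    intro x
    refine han.eqOn_zero_of_preconnected_of_eventuallyEq_zero isPreconnected_univ (mem_univ (0 : ℝ)) ?_ (mem_univ x)
    filter_upwards [Metric.ball_mem_nhds (0 : ℝ) hε] with x hx
    have h6 : (fun o => s o x) = fun o : Option (Fin n) => o.elim (Complex.exp ((x : ℂ) + w))
        fun i => g i (Complex.exp ((x : ℂ) + w)) := by
      funext o
      cases o with
      | none => rfl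
      | some i => exact hnear i x hx
    show MvPolynomial.eval (fun o => s o x) Q = 0
    rw [h6]
    exact hrel _ (hε2 x hx)
  -- the ends
  have hends : ∀ i, ∃ k : ℤ, ∀ x : ℝ, 0 < x → R < x + w.re → τ i x = G ((x : ℂ) + w + 2 * Real.pi * Complex.I * k) :=
    fun i => h4 X R G hX hG w 0 (τ i) ((hτ i).mono (subset_univ _))
  choose k hk using hends
  set b : ℝ := max 0 (R - w.re) with hb
  have hb1 : 0 ≤ b := le_max_left _ _
  have hb2 : R - w.re ≤ b := le_max_right _ _
  refine ⟨k, ?_, ?_⟩
  · intro i j hij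
    apply hinj _ hw
    show g i (Complex.exp w) = g j (Complex.exp w)
    rw [← hτ0 i, ← hτ0 j]
    refine h1 X (ray w) univ (τ i) (τ j) hX ordConnected_univ (hτ i) (hτ j) hnc (b + 1) (mem_univ _) ?_ 0 (mem_univ _)
    rw [hk i _ (by linarith) (by linarith), hk j _ (by linarith) (by linarith), hij]
  · have hE : AnalyticOnNhd ℂ (fun W : ℂ => MvPolynomial.eval (fun o : Option (Fin n) => fam G W (o.map k)) Q)
        {W : ℂ | R < W.re} := by
      intro W hW
      exact eval_an Q (fun o W => fam G W (o.map k)) W fun o _ => fam_an hG _ hW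
    intro W hW
    have hb3 : R < (((b + 1 : ℝ) : ℂ) + w).re := by simp; linarith
    refine hE.eqOn_zero_of_preconnected_of_frequently_eq_zero (half_conn R) hb3 ?_ hW
    have ht : Tendsto (fun x : ℝ => (x : ℂ) + w) (𝓝[>] (b + 1)) (𝓝[≠] (((b + 1 : ℝ) : ℂ) + w)) := by
      refine tendsto_nhdsWithin_iff.mpr ⟨?_, ?_⟩
      · have h8 : ContinuousAt (fun x : ℝ => (x : ℂ) + w) (b + 1) := by fun_prop
        exact h8.tendsto.mono_left nhdsWithin_le_nhds
      · filter_upwards [self_mem_nhdsWithin] with x hx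
        have hx' : b + 1 < x := hx
        intro h
        have h9 : (x : ℂ) + w = ((b + 1 : ℝ) : ℂ) + w := h
        have h10 : (x : ℂ) = ((b + 1 : ℝ) : ℂ) := add_right_cancel h9
        have h11 : x = b + 1 := Complex.ofReal_injective h10
        exact hx'.ne' h11
    refine ht.frequently (Filter.Eventually.frequently ?_)
    filter_upwards [self_mem_nhdsWithin] with x hx
    have hx' : b + 1 < x := hx
    rw [← hF x]
    congr 2
    funext o
    cases o with
    | none => rfl
    | some i => exact (hk i x (by linarith) (by linarith)).symm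

theorem t_MAIN (h1 : S_UNIQ) (h3 : S_LIFT) (h4 : S_INF) (hC : S_CRIT) (hA : S_ALG) (hB : S_BRI) (hT : S_TOW)
    (hGen : S_GEN) (hCo : S_COND) : S_MAIN := by
  intro X R G hX hL hG hcr K hK
  have hne := end_ne hX hG
  obtain ⟨w, yc, hyc, hd, hmax⟩ := max_crit hX hL hne hcr
  obtain ⟨k₀, k₁, Bd, hlt, hstep⟩ := hC X R G hX hL hG w yc hyc hd hmax
  have := hK
  have hcov : {a : ℂ | ∃ (n : ℕ) (y : Fin n → ℂ), Function.Injective y ∧ (∀ i, X (y i) = a) ∧
      ¬ AlgebraicIndependent K (fun o : Option (Fin n) => o.elim a y)} ⊆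
      ⋃ n : ℕ, ⋃ P ∈ {P : MvPolynomial (Option (Fin n)) K | P ≠ 0},
        {a : ℂ | ∃ y : Fin n → ℂ, Function.Injective y ∧ (∀ i, X (y i) = a) ∧
          MvPolynomial.aeval (fun o : Option (Fin n) => o.elim a y) P = 0} := by
    rintro a ⟨n, y, hy1, hy2, hy3⟩
    rw [algebraicIndependent_iff] at hy3
    push Not at hy3
    obtain ⟨P, hP1, hP2⟩ := hy3
    simp only [mem_iUnion]
    exact ⟨n, P, hP2, y, hy1, hy2, hP1⟩
  refine Set.Countable.mono hcov (countable_iUnion fun n => ?_)
  have : Countable (MvPolynomial (Option (Fin n)) K) := by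
    apply Function.Injective.countable
      (f := fun P : MvPolynomial (Option (Fin n)) K => (⟨P.support, fun m => P.coeff m.1⟩ :
        Σ s : Finset (Option (Fin n) →₀ ℕ), (s → K)))
    intro P Q hPQ
    have h1 : P.support = Q.support := congrArg Sigma.fst hPQ
    refine MvPolynomial.ext P Q fun m => ?_
    by_cases hm : m ∈ P.support
    · have h2 := (Sigma.mk.inj_iff.mp hPQ).2
      have h3 : ∀ (s t : Finset (Option (Fin n) →₀ ℕ)) (hst : s = t) (u : s → K) (v : t → K) (_ : HEq u v)
          (m : Option (Fin n) →₀ ℕ) (hm : m ∈ s), u ⟨m, hm⟩ = v ⟨m, hst ▸ hm⟩ := by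
        intro s t hst u v huv m hm
        subst hst
        rw [eq_of_heq huv]
      exact h3 _ _ h1 _ _ h2 m hm
    · rw [MvPolynomial.notMem_support_iff.mp hm]
      rw [h1] at hm
      rw [MvPolynomial.notMem_support_iff.mp hm]
  refine (Set.to_countable _).biUnion fun P hP => ?_
  by_contra hunc
  obtain ⟨a₀, δ, g, hδ, hg, hinj, hrel⟩ := hCo X hX hne K n P hunc
  obtain ⟨k, hkinj, hk⟩ := germ_branches h1 h3 h4 hX hL hG (MvPolynomial.map (algebraMap K ℂ) P) hδ hg hinj
    (fun a ha => by rw [← aeval_eq]; exact hrel a ha)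
  obtain ⟨W₀, hW₀, hgen⟩ := hGen K hK (Option ℤ) inferInstance R (fun o W => fam G W o) (fun o W hW => fam_an hG o hW)
  set a₁ : ℂ := Complex.exp W₀ with ha₁
  set z : ℤ → ℂ := fun k => G (W₀ + 2 * Real.pi * Complex.I * k) with hz
  have hfam : fam G W₀ = fun o : Option ℤ => o.elim a₁ z := fam_elim G W₀
  have hgen' : ∀ P : MvPolynomial (Option ℤ) K, MvPolynomial.aeval (fun o : Option ℤ => o.elim a₁ z) P = 0 →
      ∀ W : ℂ, R < W.re → MvPolynomial.aeval (fam G W) P = 0 := by
    intro P hP
    rw [← hfam] at hP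
    exact hgen P hP
  have hAI : AlgebraicIndependent (adj K a₁) z := by
    refine hA (adj K a₁) z ?_ ?_ k₀ k₁ Bd hlt ?_
    · intro j j' hjj
      have h6 := hG.inj _ _ (by simpa using hW₀) (by simpa using hW₀) hjj
      have h7 : (2 * Real.pi * Complex.I : ℂ) * j = 2 * Real.pi * Complex.I * j' := add_left_cancel h6
      have h8 : (2 * Real.pi * Complex.I : ℂ) ≠ 0 := Complex.two_pi_I_ne_zero
      exact_mod_cast mul_left_cancel₀ h8 h7
    · intro M P hP
      obtain ⟨P', d, hd0, hv, hev⟩ := hB K a₁ ℤ P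
      have h5 := hgen' P' (by rw [hev, hP, mul_zero]) (W₀ + 2 * Real.pi * Complex.I * M) (by simpa using hW₀)
      have h6 : fam G (W₀ + 2 * Real.pi * Complex.I * M) = fun o : Option ℤ => o.elim a₁ fun k => z (k + M) := by
        rw [fam_elim, exp_shift]
        funext o
        cases o with
        | none => rfl
        | some j =>
          show G (W₀ + 2 * Real.pi * Complex.I * M + 2 * Real.pi * Complex.I * j) =
            G (W₀ + 2 * Real.pi * Complex.I * ((j + M : ℤ) : ℂ))
          congr 1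
          push_cast
          ring
      rw [h6, hev] at h5
      exact (mul_eq_zero.mp h5).resolve_left hd0
    · intro P hPv hP
      obtain ⟨P', d, hd0, hv, hev⟩ := hB K a₁ ℤ P
      have h5 : ∀ W : ℂ, R < W.re → MvPolynomial.eval (fam G W) (MvPolynomial.map (algebraMap K ℂ) P') = 0 := by
        intro W hW
        rw [← aeval_eq]
        exact hgen' P' (by rw [hev, hP, mul_zero]) W hW
      have h6 := hstep (MvPolynomial.map (algebraMap K ℂ) P')
        (fun j hj => hPv j (hv j (vars_map_le P' hj))) h5 W₀ hW₀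
      rw [← aeval_eq] at h6
      have h7 : (fun o => fam G W₀ (stp k₀ k₁ o)) =
          fun o : Option ℤ => o.elim a₁ fun j => z (if j = k₀ then k₁ else j) := by
        funext o
        cases o with
        | none => rfl
        | some j => rfl
      rw [h7, hev] at h6
      exact (mul_eq_zero.mp h6).resolve_left hd0
  have htr : Transcendental K a₁ := by
    rintro ⟨p, hp0, hp⟩
    have h5 := hgen' (Polynomial.aeval (MvPolynomial.X none : MvPolynomial (Option ℤ) K) p) (by
      rw [← Polynomial.aeval_algHom_apply, MvPolynomial.aeval_X]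
      exact hp)
    have h6 : ∀ W : ℂ, R < W.re → Polynomial.aeval (Complex.exp W) p = 0 := by
      intro W hW
      have := h5 W hW
      rw [← Polynomial.aeval_algHom_apply, MvPolynomial.aeval_X] at this
      exact this
    have hinf : ((fun x : ℝ => Complex.exp (x : ℂ)) '' Ioi R).Infinite := by
      refine Set.Infinite.image ?_ (Set.Ioi_infinite R)
      intro x _ y _ hxy
      have h7 : Complex.exp (x : ℂ) = Complex.exp (y : ℂ) := hxy
      rw [← Complex.ofReal_exp, ← Complex.ofReal_exp] at h7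
      exact Real.exp_injective (Complex.ofReal_injective h7)
    apply hinf
    refine (Polynomial.rootSet_finite p ℂ).subset ?_
    rintro _ ⟨x, hx, rfl⟩
    rw [Polynomial.mem_rootSet]
    exact ⟨hp0, h6 _ (by simpa using hx)⟩
  have hAll := (hT K a₁ ℤ z).mpr ⟨htr, hAI⟩
  rw [algebraicIndependent_iff] at hAll
  have hQ := hAll (MvPolynomial.rename (Option.map k) P) (by
    rw [MvPolynomial.aeval_rename, ← hfam, aeval_eq]
    exact hk W₀ hW₀)
  apply hP
  have hinj2 : Function.Injective (MvPolynomial.rename (R := K) (Option.map k)) :=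
    MvPolynomial.rename_injective _ (Option.map_injective hkinj)
  exact hinj2 (by rw [hQ, map_zero])

end Pool.Agent.Y922.AP
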