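import Pool.Agent.Y922.AP.Crit

/-!
# Project AP: transfer of relations at a critical value
-/

set_option autoImplicit false

open Filter Topology Set

namespace Pool.Agent.Y922.AP

theorem fam_an {G : ℂ → ℂ} {R : ℝ} {X : ℂ → ℂ} (hG : End X R G) (o : Option ℤ) {W : ℂ} (hW : R < W.re) :
    AnalyticAt ℂ (fun W => fam G W o) W := by
  cases o with
  | none => exact Complex.differentiable_exp.analyticAt _
  | some k =>
    have h6 := hG.an (W + 2 * Real.pi * Complex.I * k) (by simpa using hW)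
    exact AnalyticAt.comp (f := fun z : ℂ => z + 2 * Real.pi * Complex.I * k) h6 (analyticAt_id.add analyticAt_const)

/-- sections over the ray -/
noncomputable def sec (w : ℂ) (σ : ℤ → ℝ → ℂ) : Option ℤ → ℝ → ℂ
  | none => fun x => Complex.exp ((x : ℂ) + w)
  | some k => σ k

theorem sec_an {X : ℂ → ℂ} {w : ℂ} {σ : ℤ → ℝ → ℂ} (hσ : ∀ k, Lift X (ray w) (Ioi 0) (σ k)) (o : Option ℤ) {x : ℝ}
    (hx : 0 < x) : AnalyticAt ℝ (sec w σ o) x := by
  cases o with
  | none => exact comp_ray (Complex.differentiable_exp.analyticAt _)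
  | some k => exact (hσ k).1 x hx

theorem half_conn (R : ℝ) : IsPreconnected {W : ℂ | R < W.re} :=
  (convex_halfSpace_re_gt R).isPreconnected

theorem transfer {X : ℂ → ℂ} {R : ℝ} {G : ℂ → ℂ} (hG : End X R G) {w yc : ℂ}
    (D : Rm X yc w) (σ : ℤ → ℝ → ℂ) (hσ : ∀ k, Lift X (ray w) (Ioi 0) (σ k))
    (hσG : ∀ k : ℤ, ∀ x : ℝ, 0 < x → R < x + w.re → σ k x = G ((x : ℂ) + w + 2 * Real.pi * Complex.I * k))
    {k₀ k₁ : ℤ} {ζ ζ' : ℂ} (hζ : ζ ^ D.m = 1) (hζ' : ζ' ^ D.m = 1)
    (hk0 : ∀ᶠ x : ℝ in 𝓝[>] (0 : ℝ), σ k₀ x = D.φ (ζ * rt D.m w x))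
    (hk1 : ∀ᶠ x : ℝ in 𝓝[>] (0 : ℝ), σ k₁ x = D.φ (ζ' * rt D.m w x))
    (Bd : Finset ℤ) (hBd : ∀ j : ℤ, j ∉ Bd → ∃ h : ℂ → ℂ, AnalyticAt ℂ h (Complex.exp w) ∧
      ∀ᶠ x : ℝ in 𝓝[>] (0 : ℝ), σ j x = h (Complex.exp ((x : ℂ) + w)))
    (Q : MvPolynomial (Option ℤ) ℂ) (hQ : ∀ k : ℤ, some k ∈ Q.vars → k = k₀ ∨ k ∉ Bd)
    (hrel : ∀ W : ℂ, R < W.re → MvPolynomial.eval (fam G W) Q = 0) :
    ∀ W : ℂ, R < W.re → MvPolynomial.eval (fun o => fam G W (stp k₀ k₁ o)) Q = 0 := by
  have hm0 := D.hm0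
  set b : ℝ := max 0 (R - w.re) with hb
  have hb1 : 0 ≤ b := le_max_left _ _
  have hb2 : R - w.re ≤ b := le_max_right _ _
  -- the sections are the family far out
  have hfar : ∀ x : ℝ, b < x → ∀ o, sec w σ o x = fam G ((x : ℂ) + w) o := by
    intro x hx o
    cases o with
    | none => rfl
    | some k => exact hσG k x (by linarith) (by linarith)
  -- analytic functions on the ray
  have han : ∀ t : Option ℤ → Option ℤ, AnalyticOnNhd ℝ
      (fun x : ℝ => MvPolynomial.eval (fun o => sec w σ (t o) x) Q) (Ioi 0) := by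
    intro t x hx
    exact eval_an Q (fun o x => sec w σ (t o) x) x fun k _ => sec_an hσ (t k) hx
  have hF0 : ∀ x : ℝ, 0 < x → MvPolynomial.eval (fun o => sec w σ o x) Q = 0 := by
    intro x hx
    have h1 : (fun x : ℝ => MvPolynomial.eval (fun o => sec w σ o x) Q) =ᶠ[𝓝 (b + 1)] 0 := by
      filter_upwards [Ioi_mem_nhds (show b < b + 1 by linarith)] with x hx
      have h2 : (fun o => sec w σ o x) = fam G ((x : ℂ) + w) := funext fun o => hfar x hx o
      show MvPolynomial.eval (fun o => sec w σ o x) Q = 0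
      rw [h2]
      exact hrel _ (by have : b < x := hx; simp; linarith)
    exact (han id).eqOn_zero_of_preconnected_of_eventuallyEq_zero ordConnected_Ioi.isPreconnected
      (show (0 : ℝ) < b + 1 by linarith) h1 hx
  -- the local inverses
  have hch : ∀ j : ℤ, ∃ h : ℂ → ℂ, j ∉ Bd → (AnalyticAt ℂ h (Complex.exp w) ∧
      ∀ᶠ x : ℝ in 𝓝[>] (0 : ℝ), σ j x = h (Complex.exp ((x : ℂ) + w))) := by
    intro j
    by_cases hj : j ∈ Bd
    · exact ⟨0, fun h => absurd hj h⟩
    · obtain ⟨h, hh⟩ := hBd j hj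
      exact ⟨h, fun _ => hh⟩
  choose H hH using hch
  let S : Option ℤ → ℂ → ℂ := fun o u => match o with
    | none => Complex.exp w + u ^ D.m
    | some k => if k = k₀ then D.φ u else H k (Complex.exp w + u ^ D.m)
  have hpw : AnalyticAt ℂ (fun u : ℂ => Complex.exp w + u ^ D.m) 0 := by fun_prop
  have hpw0 : (fun u : ℂ => Complex.exp w + u ^ D.m) 0 = Complex.exp w := by simp [hm0]
  have hΦ : AnalyticAt ℂ (fun u : ℂ => MvPolynomial.eval (fun o => S o u) Q) 0 := by
    refine eval_an Q S 0 fun o ho => ?_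
    cases o with
    | none => exact hpw
    | some k =>
      by_cases hk : k = k₀
      · have : S (some k) = D.φ := by ext u; simp [S, hk]
        rw [this]; exact D.hφ
      · have : S (some k) = fun u => H k (Complex.exp w + u ^ D.m) := by ext u; simp [S, hk]
        rw [this]
        have h3 := (hH k ((hQ k ho).resolve_left hk)).1
        rw [← hpw0] at h3
        exact AnalyticAt.comp (f := fun u : ℂ => Complex.exp w + u ^ D.m) h3 hpw
  -- comparison with the sections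
  have hcmp : ∀ (η : ℂ) (k : ℤ), η ^ D.m = 1 → (∀ᶠ x : ℝ in 𝓝[>] (0 : ℝ), σ k x = D.φ (η * rt D.m w x)) →
      ∀ᶠ x : ℝ in 𝓝[>] (0 : ℝ), MvPolynomial.eval (fun o => S o (η * rt D.m w x)) Q =
        MvPolynomial.eval (fun o => sec w σ (stp k₀ k o) x) Q := by
    intro η k hη hk
    have hall : ∀ᶠ x : ℝ in 𝓝[>] (0 : ℝ), ∀ o ∈ Q.vars, S o (η * rt D.m w x) = sec w σ (stp k₀ k o) x := by
      rw [Filter.eventually_all_finset]
      intro o ho
      have hp : ∀ x : ℝ, Complex.exp w + (η * rt D.m w x) ^ D.m = Complex.exp ((x : ℂ) + w) := by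
        intro x; rw [mul_pow, hη, rt_pow hm0]; ring
      cases o with
      | none => exact Filter.Eventually.of_forall fun x => hp x
      | some j =>
        by_cases hj : j = k₀
        · filter_upwards [hk] with x hx
          simp only [S, hj, if_true, stp, sec]
          exact hx.symm
        · filter_upwards [(hH j ((hQ j ho).resolve_left hj)).2] with x hx
          simp only [S, hj, if_false, stp, sec]
          rw [hp x, hx]
    filter_upwards [hall] with x hx
    exact eval_congr Q hx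
  have hstp0 : ∀ o, stp k₀ k₀ o = o := by
    intro o
    cases o with
    | none => rfl
    | some j => by_cases hj : j = k₀ <;> simp [stp, hj]
  have hΦ0 : ∀ᶠ u in 𝓝 (0 : ℂ), MvPolynomial.eval (fun o => S o u) Q = 0 := by
    rw [← hΦ.frequently_zero_iff_eventually_zero]
    have ht : Tendsto (fun x : ℝ => ζ * rt D.m w x) (𝓝[>] (0 : ℝ)) (𝓝[≠] 0) := by
      refine tendsto_nhdsWithin_iff.mpr ⟨D.tends, ?_⟩
      filter_upwards [self_mem_nhdsWithin] with x hx
      have hζ0 : ζ ≠ 0 := by rintro rfl; rw [zero_pow hm0] at hζ; exact zero_ne_one hζ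
      exact mul_ne_zero hζ0 (rt_ne hm0 w hx)
    refine ht.frequently (Filter.Eventually.frequently ?_)
    filter_upwards [hcmp ζ k₀ hζ hk0, self_mem_nhdsWithin] with x hx hx0
    rw [hx]
    simp only [hstp0]
    exact hF0 x hx0
  have hF1 : ∀ᶠ x : ℝ in 𝓝[>] (0 : ℝ), MvPolynomial.eval (fun o => sec w σ (stp k₀ k₁ o) x) Q = 0 := by
    filter_upwards [hcmp ζ' k₁ hζ' hk1, (D.tends (ζ := ζ')).eventually hΦ0] with x hx hx0
    rw [← hx, hx0]
  have hF1' : ∀ x : ℝ, 0 < x → MvPolynomial.eval (fun o => sec w σ (stp k₀ k₁ o) x) Q = 0 := by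
    obtain ⟨δ, hδ, hδ2⟩ := (mem_nhdsGT_iff_exists_Ioo_subset).mp hF1
    have hδ0 : (0 : ℝ) < δ := hδ
    intro x hx
    refine (han (stp k₀ k₁)).eqOn_zero_of_preconnected_of_eventuallyEq_zero ordConnected_Ioi.isPreconnected
      (show (0 : ℝ) < δ / 2 by linarith) ?_ hx
    filter_upwards [Ioo_mem_nhds (show (0 : ℝ) < δ / 2 by linarith) (show δ / 2 < δ by linarith)] with x hx
    exact hδ2 hx
  -- the identity theorem in the half-plane
  have hE : AnalyticOnNhd ℂ (fun W : ℂ => MvPolynomial.eval (fun o => fam G W (stp k₀ k₁ o)) Q) {W : ℂ | R < W.re} := by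
    intro W hW
    exact eval_an Q (fun o W => fam G W (stp k₀ k₁ o)) W fun o _ => fam_an hG _ hW
  intro W hW
  have hb3 : R < (((b + 1 : ℝ) : ℂ) + w).re := by simp; linarith
  refine hE.eqOn_zero_of_preconnected_of_frequently_eq_zero (half_conn R) hb3 ?_ hW
  have ht : Tendsto (fun x : ℝ => (x : ℂ) + w) (𝓝[>] (b + 1)) (𝓝[≠] (((b + 1 : ℝ) : ℂ) + w)) := by
    refine tendsto_nhdsWithin_iff.mpr ⟨?_, ?_⟩
    · have h8 : ContinuousAt (fun x : ℝ => (x : ℂ) + w) (b + 1) := by fun_prop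
      exact h8.tendsto.mono_left nhdsWithin_le_nhds
    · filter_upwards [self_mem_nhdsWithin] with x hx
      have hx' : b + 1 < x := hx
      intro h
      have h9 : (x : ℂ) + w = ((b + 1 : ℝ) : ℂ) + w := h
      have h10 : (x : ℂ) = ((b + 1 : ℝ) : ℂ) := add_right_cancel h9
      have h11 : x = b + 1 := Complex.ofReal_injective h10
      exact hx'.ne' h11
  refine ht.frequently (Filter.Eventually.frequently ?_)
  filter_upwards [self_mem_nhdsWithin] with x hx
  have hx' : b + 1 < x := hx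
  rw [← hF1' x (by linarith)]
  congr 2
  ext o
  exact (hfar x (by linarith) _).symm

end Pool.Agent.Y922.AP
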